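import Mathlib

/-!
# MP_b039ef_an, project SG: complex coordinates for a plane linear map without real eigenvectors
-/

set_option autoImplicit false

noncomputable section

namespace Pool.Agent.MP_b039ef_an.SG

open Complex

/-- PROOF.  Let `T₀` be the linear map, `p = X² - τ X + Δ` its characteristic polynomial
(`LinearMap.charpoly`, degree two, monic; Cayley-Hamilton `LinearMap.aeval_self_charpoly`;
`T² x = τ T x - Δ x`).  It has no real root (`LinearMap.hasEigenvalue_iff_isRoot_charpoly` or: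
if `c` is a root then `(T - c) (T - c') = 0` with `c' = τ - c`, so one of them is not injective),
so `τ² < 4 Δ`; let `α = τ / 2 + i √(Δ - τ² / 4)`: `α + conj α = τ`, `α conj α = Δ`.
Let `g ≠ 0` be a continuous linear functional (`exists_dual_vector` or a coordinate) and
`ψ x = g (T x) - conj α * g x`.  `ψ (T x) = τ g (T x) - Δ g x - conj α g (T x)
= α g (T x) - α conj α g x = α ψ x`.
`ψ` is injective: `ψ x = 0` gives `g x = 0` and `g (T x) = 0` (`conj α` is not real, the numbers
`g x`, `g (T x)` are real).  If `x ≠ 0` then the kernel of `g` is the line through `x`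
(`finrank = 1`), so `T x` is a multiple of `x`: contradiction.  Dimensions: `finrank ℝ ℂ = 2`,
`LinearEquiv.ofInjectiveEndo`-like (`LinearEquiv.ofInjective_of_finrank_eq` or
`LinearMap.linearEquivOfInjective`), `LinearEquiv.toContinuousLinearEquiv`. -/
theorem exists_coord {E : Type} [NormedAddCommGroup E] [NormedSpace ℝ E] [FiniteDimensional ℝ E]
    (hE : Module.finrank ℝ E = 2) (T : E →L[ℝ] E)
    (hT : ∀ x : E, x ≠ 0 → ∀ c : ℝ, T x ≠ c • x) :
    ∃ (ψ : E ≃L[ℝ] ℂ) (α : ℂ), ∀ x, ψ (T x) = α * ψ x := by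
  have hnt : Nontrivial E := by
    apply Module.nontrivial_of_finrank_pos (R := ℝ)
    omega
  obtain ⟨x, hx⟩ := exists_ne (0 : E)
  have hli : LinearIndependent ℝ ![x, T x] := by
    rw [LinearIndependent.pair_iff]
    intro s t hst
    have ht : t = 0 := by
      by_contra ht
      apply hT x hx (-(s / t))
      have h1 : t • T x = -(s • x) := eq_neg_of_add_eq_zero_right hst
      have h2 : T x = t⁻¹ • (t • T x) := by rw [smul_smul, inv_mul_cancel₀ ht, one_smul]
      rw [h2, h1, smul_neg, smul_smul, neg_smul, div_eq_inv_mul]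
    refine ⟨?_, ht⟩
    rw [ht, zero_smul, add_zero] at hst
    exact (smul_eq_zero.mp hst).resolve_right hx
  have hcard : Fintype.card (Fin 2) = Module.finrank ℝ E := by simp [hE]
  let b : Module.Basis (Fin 2) ℝ E := basisOfLinearIndependentOfCardEqFinrank hli hcard
  have hb0 : b 0 = x := by
    simp [b]
  have hb1 : b 1 = T x := by
    simp [b]
  -- the characteristic polynomial
  obtain ⟨τ, Δ, hτ⟩ : ∃ τ Δ : ℝ, T (T x) = τ • T x - Δ • x := by
    refine ⟨b.repr (T (T x)) 1, -(b.repr (T (T x)) 0), ?_⟩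
    have h1 := b.sum_repr (T (T x))
    rw [Fin.sum_univ_two, hb0, hb1] at h1
    rw [neg_smul, sub_neg_eq_add, add_comm]
    exact h1.symm
  have hdisc : τ ^ 2 / 4 < Δ := by
    by_contra hcon
    push Not at hcon
    set w := Real.sqrt (τ ^ 2 / 4 - Δ) with hw
    have hww : w * w = τ ^ 2 / 4 - Δ := Real.mul_self_sqrt (by linarith)
    set c := τ / 2 + w with hc
    set c' := τ / 2 - w with hc'
    have hcc : c * c' = Δ := by
      rw [hc, hc']
      linear_combination -hww
    have hs : c + c' = τ := by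
      rw [hc, hc']
      ring
    have hy : T x - c' • x ≠ 0 := by
      intro h0
      exact hT x hx c' (sub_eq_zero.mp h0)
    apply hT _ hy c
    rw [map_sub, map_smul, hτ, ← hcc, ← hs, smul_sub, smul_smul, add_smul]
    abel
  set α : ℂ := ⟨τ / 2, Real.sqrt (Δ - τ ^ 2 / 4)⟩ with hα
  have hαi : α.im ≠ 0 := by
    rw [hα]
    exact (Real.sqrt_pos.mpr (by linarith)).ne'
  have hα2 : α * α = (τ : ℂ) * α - (Δ : ℂ) := by
    have h1 : Real.sqrt (Δ - τ ^ 2 / 4) * Real.sqrt (Δ - τ ^ 2 / 4) = Δ - τ ^ 2 / 4 :=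
      Real.mul_self_sqrt (by linarith)
    apply Complex.ext
    · rw [mul_re, sub_re, re_ofReal_mul, ofReal_re]
      change τ / 2 * (τ / 2) - Real.sqrt (Δ - τ ^ 2 / 4) * Real.sqrt (Δ - τ ^ 2 / 4) =
        τ * (τ / 2) - Δ
      rw [h1]
      ring
    · rw [mul_im, sub_im, im_ofReal_mul, ofReal_im]
      change τ / 2 * Real.sqrt (Δ - τ ^ 2 / 4) + Real.sqrt (Δ - τ ^ 2 / 4) * (τ / 2) =
        τ * Real.sqrt (Δ - τ ^ 2 / 4) - 0
      ring
  let ψ0 : E →ₗ[ℝ] ℂ := b.constr ℝ ![1, α]
  have hψx : ψ0 x = 1 := by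
    have h1 : ψ0 (b 0) = _ := b.constr_basis ℝ ![1, α] 0
    rw [hb0] at h1
    exact h1
  have hψT : ψ0 (T x) = α := by
    have h1 : ψ0 (b 1) = _ := b.constr_basis ℝ ![1, α] 1
    rw [hb1] at h1
    exact h1
  have hrep : ∀ y : E, ∃ s t : ℝ, y = s • x + t • T x := by
    intro y
    refine ⟨b.repr y 0, b.repr y 1, ?_⟩
    have h1 := b.sum_repr y
    rw [Fin.sum_univ_two, hb0, hb1] at h1
    exact h1.symm
  have hinj : Function.Injective ψ0 := by
    rw [injective_iff_map_eq_zero]
    intro y hy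
    obtain ⟨s, t, rfl⟩ := hrep y
    rw [map_add, map_smul, map_smul, hψx, hψT, real_smul, real_smul, mul_one] at hy
    have h1 := congrArg Complex.im hy
    rw [add_im, ofReal_im, im_ofReal_mul, zero_im, zero_add] at h1
    have ht : t = 0 := (mul_eq_zero.mp h1).resolve_right hαi
    rw [ht, ofReal_zero, zero_mul, add_zero] at hy
    have hs : s = 0 := by exact_mod_cast hy
    rw [hs, ht, zero_smul, zero_smul, add_zero]
  have hdim : Module.finrank ℝ E = Module.finrank ℝ ℂ := by
    rw [hE, Complex.finrank_real_complex]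
  refine ⟨(LinearMap.linearEquivOfInjective ψ0 hinj hdim).toContinuousLinearEquiv, α, ?_⟩
  intro y
  change ψ0 (T y) = α * ψ0 y
  obtain ⟨s, t, rfl⟩ := hrep y
  rw [map_add, map_smul, map_smul, hτ]
  simp only [map_add, map_sub, map_smul, hψx, hψT, real_smul]
  linear_combination -(t : ℂ) * hα2

end Pool.Agent.MP_b039ef_an.SG
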