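import Pool.Agent.Lib.MP_b039ef_an_SG.Defs

/-!
# MP_b039ef_an, project SG: the examples in all dimensions
-/

set_option autoImplicit false

noncomputable section

namespace Pool.Agent.MP_b039ef_an.SG

open Complex

/-- the projection to the first two coordinates -/
def PP (d : ℕ) (hd : 2 ≤ d) : EuclideanSpace ℝ (Fin d) →L[ℝ] ℂ :=
  (EuclideanSpace.proj (⟨0, by omega⟩ : Fin d) : EuclideanSpace ℝ (Fin d) →L[ℝ] ℝ).smulRight
      (1 : ℂ) +
    (EuclideanSpace.proj (⟨1, by omega⟩ : Fin d) : EuclideanSpace ℝ (Fin d) →L[ℝ] ℝ).smulRight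
      Complex.I

/-- its section -/
def II (d : ℕ) (hd : 2 ≤ d) : ℂ →L[ℝ] EuclideanSpace ℝ (Fin d) :=
  Complex.reCLM.smulRight (EuclideanSpace.single (⟨0, by omega⟩ : Fin d) (1 : ℝ)) +
    Complex.imCLM.smulRight (EuclideanSpace.single (⟨1, by omega⟩ : Fin d) (1 : ℝ))

/-- the linear map which is `B` in the plane and `r` on the other coordinates -/
def AA (d : ℕ) (hd : 2 ≤ d) (r : ℝ) (B : ℂ →L[ℝ] ℂ) :
    EuclideanSpace ℝ (Fin d) →L[ℝ] EuclideanSpace ℝ (Fin d) :=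
  (II d hd).comp (B.comp (PP d hd)) +
    r • (ContinuousLinearMap.id ℝ (EuclideanSpace ℝ (Fin d)) - (II d hd).comp (PP d hd))

variable {d : ℕ} (hd : 2 ≤ d)

private theorem PP_apply (x : EuclideanSpace ℝ (Fin d)) :
    PP d hd x = (x ⟨0, by omega⟩ : ℝ) • (1 : ℂ) + (x ⟨1, by omega⟩ : ℝ) • Complex.I := rfl

private theorem II_apply (z : ℂ) :
    II d hd z = z.re • EuclideanSpace.single (⟨0, by omega⟩ : Fin d) (1 : ℝ) +
      z.im • EuclideanSpace.single (⟨1, by omega⟩ : Fin d) (1 : ℝ) := rfl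

private theorem AA_apply (r : ℝ) (B : ℂ →L[ℝ] ℂ) (x : EuclideanSpace ℝ (Fin d)) :
    AA d hd r B x = II d hd (B (PP d hd x)) + r • (x - II d hd (PP d hd x)) := rfl

private theorem PP_le (x : EuclideanSpace ℝ (Fin d)) : ‖PP d hd x‖ ≤ 2 * ‖x‖ := by
  rw [PP_apply]
  have h0 := PiLp.norm_apply_le x (⟨0, by omega⟩ : Fin d)
  have h1 := PiLp.norm_apply_le x (⟨1, by omega⟩ : Fin d)
  have h2 := norm_add_le ((x ⟨0, by omega⟩ : ℝ) • (1 : ℂ)) ((x ⟨1, by omega⟩ : ℝ) • Complex.I)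
  rw [norm_smul, norm_smul, norm_one, Complex.norm_I, mul_one, mul_one] at h2
  linarith

private theorem II_le (z : ℂ) : ‖II d hd z‖ ≤ 2 * ‖z‖ := by
  rw [II_apply]
  have h0 := Complex.abs_re_le_norm z
  have h1 := Complex.abs_im_le_norm z
  have h2 := norm_add_le (z.re • EuclideanSpace.single (⟨0, by omega⟩ : Fin d) (1 : ℝ))
    (z.im • EuclideanSpace.single (⟨1, by omega⟩ : Fin d) (1 : ℝ))
  rw [norm_smul, norm_smul, EuclideanSpace.norm_single, EuclideanSpace.norm_single, norm_one,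
    mul_one, mul_one, Real.norm_eq_abs, Real.norm_eq_abs] at h2
  linarith

theorem PP_II (z : ℂ) : PP d hd (II d hd z) = z := by
  rw [PP_apply, II_apply]
  have h01 : (⟨0, by omega⟩ : Fin d) ≠ ⟨1, by omega⟩ := by
    intro h
    exact absurd (Fin.mk.inj_iff.1 h) (by norm_num)
  have h10 : (⟨1, by omega⟩ : Fin d) ≠ ⟨0, by omega⟩ := fun h => h01 h.symm
  simp only [PiLp.add_apply, PiLp.smul_apply, EuclideanSpace.single_apply, h01, h10, if_true,
    if_false, smul_eq_mul, mul_one, mul_zero, add_zero, zero_add]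
  apply Complex.ext <;> simp

theorem PP_AA (r : ℝ) (B : ℂ →L[ℝ] ℂ) (x : EuclideanSpace ℝ (Fin d)) :
    PP d hd (AA d hd r B x) = B (PP d hd x) := by
  rw [AA_apply, map_add, map_smul, map_sub, PP_II, PP_II, sub_self, smul_zero, add_zero]

theorem AA_II (r : ℝ) (B : ℂ →L[ℝ] ℂ) (z : ℂ) :
    AA d hd r B (II d hd z) = II d hd (B z) := by
  rw [AA_apply, PP_II, sub_self, smul_zero, add_zero]

theorem AA_ker {r : ℝ} (B : ℂ →L[ℝ] ℂ) {x : EuclideanSpace ℝ (Fin d)} (hx : PP d hd x = 0) :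
    AA d hd r B x = r • x := by
  rw [AA_apply, hx, map_zero, map_zero, sub_zero, zero_add]

/-- PROOF.  Injective: `P (A x) = B (P x)`, so `P x = 0`, and then `A x = r x`.  Finite
dimension. -/
theorem AA_bij {r : ℝ} (hr : r ≠ 0) {B : ℂ →L[ℝ] ℂ} (hB : Function.Injective B) :
    Function.Bijective (AA d hd r B) := by
  have hinj : Function.Injective (AA d hd r B) := by
    rw [injective_iff_map_eq_zero]
    intro x hx
    have h1 := PP_AA hd r B x
    rw [hx, map_zero] at h1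
    have h2 : PP d hd x = 0 := hB (by rw [← h1, map_zero])
    rw [AA_ker hd B h2] at hx
    exact (smul_eq_zero.1 hx).resolve_left hr
  refine ⟨hinj, ?_⟩
  have h1 : Function.Injective (AA d hd r B : EuclideanSpace ℝ (Fin d) →ₗ[ℝ]
      EuclideanSpace ℝ (Fin d)) := hinj
  exact LinearMap.injective_iff_surjective.1 h1

/-- PROOF.  `‖P‖ ≤ 2`, `‖ι‖ ≤ 2` (triangle inequality; in fact they are at most one). -/
theorem AA_norm {r : ℝ} (hr : 0 ≤ r) {B : ℂ →L[ℝ] ℂ} (hB : ‖B‖ ≤ 3 * r) :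
    ‖AA d hd r B‖ ≤ 17 * r := by
  refine ContinuousLinearMap.opNorm_le_bound _ (by positivity) fun x => ?_
  rw [AA_apply]
  have h1 := norm_add_le (II d hd (B (PP d hd x))) (r • (x - II d hd (PP d hd x)))
  have h2 := II_le hd (B (PP d hd x))
  have h3 : ‖B (PP d hd x)‖ ≤ 3 * r * (2 * ‖x‖) := by
    refine (B.le_opNorm _).trans ?_
    have := PP_le hd x
    gcongr
  have h4 : ‖r • (x - II d hd (PP d hd x))‖ ≤ r * (‖x‖ + 2 * (2 * ‖x‖)) := by
    rw [norm_smul, Real.norm_of_nonneg hr]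
    have h5 := norm_sub_le x (II d hd (PP d hd x))
    have h6 := II_le hd (PP d hd x)
    have h7 := PP_le hd x
    refine mul_le_mul_of_nonneg_left ?_ hr
    linarith
  linarith

/-- PROOF.  `A x = r x` for a vector with `P x = 0`, or `‖A (ι 1)‖ > 0` because `A` is injective. -/
theorem AA_pos {r : ℝ} (hr : r ≠ 0) {B : ℂ →L[ℝ] ℂ} (hB : Function.Injective B) :
    0 < ‖AA d hd r B‖ := by
  rw [norm_pos_iff]
  intro h
  have h1 := AA_II hd r B 1
  rw [h, ContinuousLinearMap.zero_apply] at h1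
  have h2 := PP_II hd (B 1)
  rw [← h1, map_zero] at h2
  have h3 : (1 : ℂ) = 0 := hB (by rw [← h2, map_zero])
  exact one_ne_zero h3

/-- `α = r e^i`.  PROOF.  `Im (α ^ n) = r ^ n sin n`, and `sin n ≠ 0` for `n ≥ 1` because `π` is
irrational (`irrational_pi`, `Real.sin_eq_zero_iff`). -/
theorem irr_exp {r : ℝ} (hr : r ≠ 0) (n : ℕ) (hn : 0 < n) :
    (((r : ℂ) * Complex.exp Complex.I) ^ n).im ≠ 0 := by
  have h1 : (((r : ℂ) * Complex.exp Complex.I) ^ n).im = r ^ n * Real.sin n := by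
    rw [mul_pow, ← Complex.exp_nat_mul, ← Complex.ofReal_pow, Complex.im_ofReal_mul]
    congr 1
    have h2 : ((n : ℂ) * Complex.I) = ((n : ℝ) : ℂ) * Complex.I := by push_cast; rfl
    rw [h2, Complex.exp_ofReal_mul_I_im]
  rw [h1]
  refine mul_ne_zero (pow_ne_zero _ hr) fun h2 => ?_
  obtain ⟨k, hk⟩ := Real.sin_eq_zero_iff.1 h2
  have hk0 : (k : ℝ) ≠ 0 := by
    intro h3
    rw [h3, zero_mul] at hk
    have h4 : (0 : ℝ) < n := Nat.cast_pos.2 hn
    linarith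
  refine irrational_pi ⟨(n : ℚ) / k, ?_⟩
  push_cast
  rw [← hk]
  field_simp

theorem norm_rexp {r : ℝ} (hr : 0 ≤ r) : ‖(r : ℂ) * Complex.exp Complex.I‖ = r := by
  rw [norm_mul, Complex.norm_real, Real.norm_of_nonneg hr, Complex.norm_exp, Complex.I_re,
    Real.exp_zero, mul_one]

/-- PROOF.  `p z + q conj z = 0` gives `‖p‖ ‖z‖ = ‖q‖ ‖z‖`. -/
theorem rl_inj {p q : ℂ} (h : ‖p‖ ≠ ‖q‖) : Function.Injective (rl p q) := by
  rw [injective_iff_map_eq_zero]
  intro z hz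
  rw [rl_apply] at hz
  have h1 : ‖p * z‖ = ‖q * (starRingEnd ℂ) z‖ := by
    rw [eq_neg_of_add_eq_zero_left hz, norm_neg]
  rw [norm_mul, norm_mul, RCLike.norm_conj] at h1
  by_contra hz0
  exact h (mul_right_cancel₀ (norm_ne_zero_iff.2 hz0) h1)

theorem rl_norm (p q : ℂ) : ‖rl p q‖ ≤ ‖p‖ + ‖q‖ := by
  refine ContinuousLinearMap.opNorm_le_bound _ (by positivity) fun z => ?_
  rw [rl_apply]
  refine (norm_add_le _ _).trans ?_
  rw [norm_mul, norm_mul, RCLike.norm_conj, add_mul]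

end Pool.Agent.MP_b039ef_an.SG
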