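import Pool.Agent.Lib.MP_b039ef_an_SG.LowA

/-!
# MP_b039ef_an, project SG: iterated systems
-/

set_option autoImplicit false

noncomputable section

namespace Pool.Agent.MP_b039ef_an.SG

open scoped ENNReal NNReal

variable {E : Type} [NormedAddCommGroup E] [NormedSpace ℝ E] {ι : Type} [Fintype ι]

/-- The linear part of the composition of the maps with the indices `k 0, k 1, …`. -/
def wp (A : ι → E →L[ℝ] E) {n : ℕ} (k : Fin n → ι) : E →L[ℝ] E :=
  (List.ofFn fun j => A (k j)).prod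

omit [Fintype ι] in
private theorem wp_succ (A : ι → E →L[ℝ] E) {n : ℕ} (k : Fin (n + 1) → ι) :
    wp A k = A (k 0) * wp A (Fin.tail k) := by
  unfold wp
  rw [List.ofFn_succ, List.prod_cons]
  rfl

omit [Fintype ι] in
private theorem wp_le {A : ι → E →L[ℝ] E} (h1 : ∀ i, ‖A i‖ < 1) :
    ∀ (n : ℕ) (k : Fin n → ι), ‖wp A k‖ ≤ 1
  | 0, k => by
    unfold wp
    rw [List.ofFn_zero, List.prod_nil]
    exact ContinuousLinearMap.norm_id_le
  | n + 1, k => by
    rw [wp_succ]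
    refine (norm_mul_le _ _).trans ?_
    exact mul_le_one₀ (h1 _).le (norm_nonneg _) (wp_le h1 n _)

omit [Fintype ι] in
private theorem wp_inj {A : ι → E →L[ℝ] E} (h1 : ∀ i, Function.Injective (A i)) :
    ∀ (n : ℕ) (k : Fin n → ι), Function.Injective (wp A k)
  | 0, k => by
    unfold wp
    rw [List.ofFn_zero, List.prod_nil]
    exact fun x y h => h
  | n + 1, k => by
    rw [wp_succ]
    exact (h1 _).comp (wp_inj h1 n _)

/-- PROOF.  Induction on `n`: `Fin (n + 1) → ι` is `ι × (Fin n → ι)` (`Fin.consEquiv`, `Fin.cons`,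
`List.ofFn_succ`, `List.prod_cons`), `F = ⋃ i, (A i F + t i)` and `F = ⋃ k, (wp A k F + t' k)`, so
`F = ⋃ (i, k), (A i (wp A k F + t' k) + t i)`.  For `n = 0` the product is `1`, `t' = 0`. -/
theorem words_selfAffine {A : ι → E →L[ℝ] E} {t : ι → E} {F : Set E}
    (hF : IsSelfAffineSet A t F) (n : ℕ) :
    ∃ t' : (Fin n → ι) → E, IsSelfAffineSet (fun k : Fin n → ι => wp A k) t' F := by
  induction n with
  | zero =>
    refine ⟨fun _ => 0, hF.1, hF.2.1, ?_⟩
    ext x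
    rw [Set.mem_iUnion]
    constructor
    · intro hx
      exact ⟨Fin.elim0, x, hx, by simp [wp]⟩
    · rintro ⟨k, y, hy, rfl⟩
      have h1 : wp A k y + 0 = y := by simp [wp]
      show wp A k y + 0 ∈ F
      rw [h1]
      exact hy
  | succ n ih =>
    obtain ⟨t', h1, h2, h3⟩ := ih
    refine ⟨fun k => A (k 0) (t' (Fin.tail k)) + t (k 0), h1, h2, ?_⟩
    ext x
    rw [Set.mem_iUnion]
    constructor
    · intro hx
      rw [hF.2.2, Set.mem_iUnion] at hx
      obtain ⟨i, z, hz, rfl⟩ := hx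
      rw [h3, Set.mem_iUnion] at hz
      obtain ⟨k, y, hy, rfl⟩ := hz
      refine ⟨Fin.cons i k, y, hy, ?_⟩
      simp only [wp_succ, Fin.cons_zero, Fin.tail_cons]
      rw [map_add, add_assoc]
      rfl
    · rintro ⟨k, y, hy, rfl⟩
      have h4 : wp A (Fin.tail k) y + t' (Fin.tail k) ∈ F := by
        rw [h3, Set.mem_iUnion]
        exact ⟨Fin.tail k, y, hy, rfl⟩
      rw [hF.2.2, Set.mem_iUnion]
      refine ⟨k 0, _, h4, ?_⟩
      simp only [wp_succ]
      rw [map_add, add_assoc]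
      rfl

/-- PROOF.  `words_selfAffine` and `lowerDim_le_of_sum`; `‖wp A k‖ < 1` for `n ≥ 1`
(`norm_mul_le`), `0 < ‖wp A k‖` because the product is injective and `E` is not trivial (`F` has
two points). -/
theorem lowerDim_le_words {A : ι → E →L[ℝ] E} {t : ι → E} {F : Set E}
    (hF : IsSelfAffineSet A t F) (hnt : F.Nontrivial) (hinj : ∀ i, Function.Injective (A i))
    (h1 : ∀ i, ‖A i‖ < 1) {n : ℕ} (hn : 0 < n) {s : ℝ} (hs : 0 < s)
    (hsum : ∑ k : Fin n → ι, ‖wp A k‖ ^ s ≤ 1) : lowerDim F ≤ ENNReal.ofReal s := by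
  obtain ⟨t', hF'⟩ := words_selfAffine hF n
  obtain ⟨x, hx, y, hy, hxy⟩ := hnt
  refine lowerDim_le_of_sum hF' ⟨x, hx, y, hy, hxy⟩ (fun k => ?_) (fun k => ?_) hs hsum
  · rw [norm_pos_iff]
    intro h2
    refine hxy (wp_inj hinj n k ?_)
    rw [h2]
    rfl
  · obtain ⟨m, rfl⟩ : ∃ m, n = m + 1 := ⟨n - 1, by omega⟩
    rw [wp_succ]
    refine (norm_mul_le _ _).trans_lt ?_
    have h3 := wp_le h1 m (Fin.tail k)
    have h4 := h1 (k 0)
    have h5 := norm_nonneg (A (k 0))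
    calc ‖A (k 0)‖ * ‖wp A (Fin.tail k)‖ ≤ ‖A (k 0)‖ * 1 := mul_le_mul_of_nonneg_left h3 h5
      _ < 1 := by rw [mul_one]; exact h4

end Pool.Agent.MP_b039ef_an.SG
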