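import Pool.Agent.Lib.MP_b039ef_an_SG.FinA
import Pool.Agent.Lib.MP_b039ef_an_SG.LowB
import Pool.Agent.Lib.MP_b039ef_an_SG.Cj
import Pool.Agent.Lib.MP_b039ef_an_SG.Ex

/-!
# MP_b039ef_an, project SG: assembly
-/

set_option autoImplicit false

noncomputable section

namespace Pool.Agent.MP_b039ef_an.SG

open Complex
open scoped ENNReal NNReal

theorem exists_rl (B : ℂ →L[ℝ] ℂ) : ∃ p q : ℂ, B = rl p q := by
  refine ⟨(B 1 - I * B I) / 2, (B 1 + I * B I) / 2, ?_⟩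
  ext z
  have hz : z = z.re • (1 : ℂ) + z.im • I := by
    rw [Complex.real_smul, Complex.real_smul, mul_one]
    exact (Complex.re_add_im z).symm
  have h1 : B z = z.re * B 1 + z.im * B I := by
    conv_lhs => rw [hz]
    rw [map_add, map_smul, map_smul, Complex.real_smul, Complex.real_smul]
  have h2 : (starRingEnd ℂ) z = z.re - z.im * I := by
    apply Complex.ext <;> simp
  have h3 : z = z.re + z.im * I := (Complex.re_add_im z).symm
  rw [rl_apply, h1, h2]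
  have hI : I * I = -1 := Complex.I_mul_I
  conv_rhs => rw [h3]
  simp only [Complex.add_re, Complex.ofReal_re, Complex.mul_re, Complex.I_re, Complex.ofReal_im,
    Complex.I_im, Complex.add_im, Complex.mul_im, mul_zero, mul_one, sub_zero, add_zero,
    zero_add]
  linear_combination ((z.im : ℂ) * B I) * hI

theorem rl_conf {p q : ℂ} (h : p = 0 ∨ q = 0) (z : ℂ) :
    ‖rl p q z‖ = (‖p‖ + ‖q‖) * ‖z‖ := by
  rcases h with rfl | rfl
  · rw [rl_apply, zero_mul, zero_add, norm_mul, norm_zero, zero_add, RCLike.norm_conj]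
  · rw [rl_apply, zero_mul, add_zero, norm_mul, norm_zero, add_zero]

section

variable {E : Type} [NormedAddCommGroup E] [NormedSpace ℝ E]

/-- If all maps fix one point then the self-affine set is this point. -/
theorem subset_singleton {ι : Type} {A : ι → E →L[ℝ] E} {t : ι → E} {F : Set E}
    (hF : IsSelfAffineSet A t F) (h1 : ∀ i, ‖A i‖ < 1) {x₀ : E} (hx : ∀ i, A i x₀ + t i = x₀) :
    F ⊆ {x₀} := by
  obtain ⟨y, hy, hmax⟩ := hF.2.1.exists_isMaxOn hF.1
    (continuous_id.sub continuous_const).norm.continuousOn (f := fun y => ‖y - x₀‖)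
  have h2 : ‖y - x₀‖ = 0 := by
    have hy2 := hy
    rw [hF.2.2] at hy2
    obtain ⟨i, y', hy', hyy⟩ := Set.mem_iUnion.1 hy2
    have h3 : y - x₀ = A i (y' - x₀) := by
      rw [map_sub]
      have h4 : A i y' + t i = y := hyy
      have h5 := hx i
      rw [← h4]
      nth_rewrite 1 [← h5]
      abel
    have h4 : ‖y - x₀‖ ≤ ‖A i‖ * ‖y' - x₀‖ := by
      rw [h3]
      exact (A i).le_opNorm _
    have h5 : ‖y' - x₀‖ ≤ ‖y - x₀‖ := hmax hy'
    by_contra hne
    have h6 : 0 < ‖y - x₀‖ := lt_of_le_of_ne (norm_nonneg _) (Ne.symm hne)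
    have h7 : ‖A i‖ * ‖y' - x₀‖ ≤ ‖A i‖ * ‖y - x₀‖ :=
      mul_le_mul_of_nonneg_left h5 (norm_nonneg _)
    nlinarith [h1 i]
  intro x hxF
  have h3 : ‖x - x₀‖ ≤ ‖y - x₀‖ := hmax hxF
  rw [h2] at h3
  exact sub_eq_zero.1 (norm_le_zero_iff.1 h3)

/-- The maps of the semigroup in the coordinates `ψ`. -/
theorem sm_word {m : ℕ} {A : Fin m → E →L[ℝ] E} {t : Fin m → E} {F : Set E}
    (hF : IsSelfAffineSet A t F) (ψ : E ≃L[ℝ] ℂ) (w : List (Fin m)) :
    ∃ f : E → E, Sm (ψ : E →L[ℝ] ℂ) (ψ.symm : ℂ →L[ℝ] E) F f (w.map A).prod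
      ((ψ : E →L[ℝ] ℂ).comp ((w.map A).prod.comp (ψ.symm : ℂ →L[ℝ] E))) := by
  induction w with
  | nil =>
    refine ⟨id, fun _ hx => hx, fun _ _ => rfl, fun x => ?_, fun z => ?_⟩
    · exact (congrArg ψ (ψ.symm_apply_apply x)).symm
    · exact (ψ.symm_apply_apply _).symm
  | cons i w ih =>
    obtain ⟨f, hf⟩ := ih
    refine ⟨fun x => A i (f x) + t i, fun x hx => ?_, fun x y => ?_, fun x => ?_, fun z => ?_⟩
    · rw [hF.2.2]
      exact Set.mem_iUnion.2 ⟨i, f x, hf.maps x hx, rfl⟩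
    · rw [add_sub_add_right_eq_sub, ← map_sub, hf.lin, List.map_cons, List.prod_cons]
      rfl
    · change ψ _ = ψ ((List.map A (i :: w)).prod (ψ.symm (ψ x)))
      rw [ψ.symm_apply_apply]
    · exact (ψ.symm_apply_apply _).symm

theorem norm_prod_lt {m : ℕ} {A : Fin m → E →L[ℝ] E} (h1 : ∀ i, ‖A i‖ < 1) {w : List (Fin m)}
    (hw : w ≠ []) : ‖(w.map A).prod‖ < 1 := by
  have h2 : ∀ w : List (Fin m), ‖(w.map A).prod‖ ≤ 1 := by
    intro w
    induction w with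
    | nil =>
      rw [List.map_nil, List.prod_nil]
      exact ContinuousLinearMap.norm_id_le
    | cons i w ih =>
      rw [List.map_cons, List.prod_cons]
      exact (norm_mul_le _ _).trans (mul_le_one₀ (h1 i).le (norm_nonneg _) ih)
  cases w with
  | nil => exact absurd rfl hw
  | cons i w =>
    rw [List.map_cons, List.prod_cons]
    exact (norm_mul_le _ _).trans_lt (mul_lt_one_of_nonneg_of_lt_one_left (norm_nonneg _) (h1 i)
      (h2 w))

/-- The sure gap in the plane. -/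
theorem plane [FiniteDimensional ℝ E] (hE : Module.finrank ℝ E = 2) {m : ℕ}
    {A : Fin m → E →L[ℝ] E} (hinj : ∀ i, Function.Injective (A i)) (h1 : ∀ i, ‖A i‖ < 1)
    {w : List (Fin m)}
    (hw : ∀ n : ℕ, 0 < n → ∀ x : E, x ≠ 0 → ∀ c : ℝ, ((w.map A).prod ^ n) x ≠ c • x)
    (hconf : ¬ ∃ g : E ≃L[ℝ] ℂ, ∀ i, ∃ c : ℝ, ∀ x, ‖g (A i x)‖ = c * ‖g x‖)
    {t : Fin m → E} {F : Set E} (hF : IsSelfAffineSet A t F) (hnt : F.Nontrivial) :
    1 ≤ assouadDim F := by
  set T := (w.map A).prod with hT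
  obtain ⟨ψ, α, hψ⟩ := exists_coord hE T (fun x hx c => by
    have h2 := hw 1 one_pos x hx c
    rwa [pow_one] at h2)
  have hpow : ∀ (n : ℕ) (x : E), ψ ((T ^ n) x) = α ^ n * ψ x := by
    intro n
    induction n with
    | zero =>
      intro x
      rw [pow_zero, pow_zero, one_mul]
      rfl
    | succ n ih =>
      intro x
      rw [pow_succ', pow_succ']
      change ψ (T ((T ^ n) x)) = _
      rw [hψ, ih, mul_assoc]
  have hx1 : (ψ.symm 1 : E) ≠ 0 := by
    intro h2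
    have h3 := congrArg ψ h2
    rw [ψ.apply_symm_apply, map_zero] at h3
    exact one_ne_zero h3
  have hirr : ∀ n : ℕ, 0 < n → (α ^ n).im ≠ 0 := by
    intro n hn him
    refine hw n hn (ψ.symm 1) hx1 (α ^ n).re (ψ.injective ?_)
    rw [hpow, map_smul, Complex.real_smul]
    congr 1
    apply Complex.ext
    · rfl
    · rw [him]
      rfl
  have hw0 : w ≠ [] := by
    rintro rfl
    refine hw 1 one_pos (ψ.symm 1) hx1 1 ?_
    rw [hT, List.map_nil, List.prod_nil, one_pow, one_smul]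
    rfl
  have hTn : ‖T‖ < 1 := norm_prod_lt h1 hw0
  have hα1 : ‖α‖ < 1 := by
    by_contra hcon
    rw [not_lt] at hcon
    have h2 : ∀ n : ℕ, (1 : ℝ) ≤ ‖(ψ : E →L[ℝ] ℂ)‖ * (‖T‖ ^ n * ‖(ψ.symm 1 : E)‖) := by
      intro n
      have h3 := hpow n (ψ.symm 1)
      rw [ψ.apply_symm_apply, mul_one] at h3
      have h4 : (1 : ℝ) ≤ ‖α ^ n‖ := by
        rw [norm_pow]
        exact one_le_pow₀ hcon
      rw [← h3] at h4
      refine h4.trans (((ψ : E →L[ℝ] ℂ).le_opNorm _).trans ?_)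
      refine mul_le_mul_of_nonneg_left ?_ (norm_nonneg _)
      refine ((T ^ n).le_opNorm _).trans (mul_le_mul_of_nonneg_right ?_ (norm_nonneg _))
      rcases Nat.eq_zero_or_pos n with rfl | hn
      · rw [pow_zero, pow_zero]
        exact ContinuousLinearMap.norm_id_le
      · exact norm_pow_le' T hn
    have h3 : Filter.Tendsto (fun n : ℕ => ‖(ψ : E →L[ℝ] ℂ)‖ * (‖T‖ ^ n * ‖(ψ.symm 1 : E)‖))
        Filter.atTop (nhds (‖(ψ : E →L[ℝ] ℂ)‖ * (0 * ‖(ψ.symm 1 : E)‖))) :=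
      ((tendsto_pow_atTop_nhds_zero_of_lt_one (norm_nonneg _) hTn).mul_const _).const_mul _
    rw [zero_mul, mul_zero] at h3
    exact absurd (ge_of_tendsto' h3 h2) (by norm_num)
  -- a map which is not conformal
  have hnc : ∃ j, ∃ p q : ℂ, p ≠ 0 ∧ q ≠ 0 ∧
      (ψ : E →L[ℝ] ℂ).comp ((A j).comp (ψ.symm : ℂ →L[ℝ] E)) = rl p q := by
    by_contra hcon
    refine hconf ⟨ψ, fun i => ?_⟩
    obtain ⟨p, q, hpq⟩ := exists_rl ((ψ : E →L[ℝ] ℂ).comp ((A i).comp (ψ.symm : ℂ →L[ℝ] E)))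
    have h2 : p = 0 ∨ q = 0 := by
      by_contra h3
      rw [not_or] at h3
      exact hcon ⟨i, p, q, h3.1, h3.2, hpq⟩
    refine ⟨‖p‖ + ‖q‖, fun x => ?_⟩
    rw [← rl_conf h2, ← hpq]
    change _ = ‖ψ (A i (ψ.symm (ψ x)))‖
    rw [ψ.symm_apply_apply]
  obtain ⟨j, p, q, hp, hq, hpq⟩ := hnc
  obtain ⟨f₁, hf₁⟩ := sm_word hF ψ w
  obtain ⟨f₂, hf₂⟩ := sm_word hF ψ [j]
  have hB1 : (ψ : E →L[ℝ] ℂ).comp (T.comp (ψ.symm : ℂ →L[ℝ] E)) = rl α 0 := by
    ext z
    rw [rl_apply, zero_mul, add_zero]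
    change ψ (T (ψ.symm z)) = _
    rw [hψ, ψ.apply_symm_apply]
  rw [← hT, hB1] at hf₁
  have hB2 : (List.map A [j]).prod = A j := by
    rw [List.map_cons, List.map_nil, List.prod_cons, List.prod_nil, mul_one]
  rw [hB2, hpq] at hf₂
  have hα0 : (1 : ℂ) - α ≠ 0 := by
    intro h2
    have h3 : α = 1 := (sub_eq_zero.1 h2).symm
    rw [h3, norm_one] at hα1
    exact lt_irrefl _ hα1
  set z₁ : ℂ := ψ (f₁ 0) / (1 - α) with hz₁
  have hz : ψ (f₁ 0) = (1 - α) * z₁ := by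
    rw [hz₁, mul_div_cancel₀ _ hα0]
  have hfix : ∀ x, ψ (f₁ x) - z₁ = α * (ψ x - z₁) := by
    intro x
    have h2 := hf₁.lin x 0
    rw [sub_zero] at h2
    have h3 := congrArg ψ h2
    rw [map_sub, hψ, hz] at h3
    linear_combination h3
  -- a map which does not fix the centre
  have hex : ∃ i, A i (ψ.symm z₁) + t i ≠ ψ.symm z₁ := by
    by_contra hcon
    have h2 : ∀ i, A i (ψ.symm z₁) + t i = ψ.symm z₁ := fun i => by
      by_contra h3
      exact hcon ⟨i, h3⟩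
    have h3 := subset_singleton hF h1 h2
    exact Set.not_subsingleton_iff.2 hnt (Set.subsingleton_singleton.anti h3)
  obtain ⟨i, hi⟩ := hex
  have hs3 : Sm (ψ : E →L[ℝ] ℂ) (ψ.symm : ℂ →L[ℝ] E) F (fun x => A i x + t i) (A i)
      ((ψ : E →L[ℝ] ℂ).comp ((A i).comp (ψ.symm : ℂ →L[ℝ] E))) := by
    refine ⟨fun x hx => ?_, fun x y => ?_, fun x => ?_, fun z => ?_⟩
    · rw [hF.2.2]
      exact Set.mem_iUnion.2 ⟨i, x, hx, rfl⟩
    · rw [add_sub_add_right_eq_sub, ← map_sub]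
    · change _ = ψ (A i (ψ.symm (ψ x)))
      rw [ψ.symm_apply_apply]
      rfl
    · exact (ψ.symm_apply_apply _).symm
  have hker : ∀ (L : E →L[ℝ] E) (c : ℝ) (y : E), (ψ : E →L[ℝ] ℂ) y = 0 → ‖L y‖ ≤ c * ‖y‖ := by
    intro L c y hy
    have h2 : y = 0 := ψ.injective (by rw [map_zero]; exact hy)
    rw [h2, map_zero, norm_zero, mul_zero]
  refine one_le_assouad (P := (ψ : E →L[ℝ] ℂ)) (ι := (ψ.symm : ℂ →L[ℝ] E)) (f₁ := f₁) (f₂ := f₂)
    (f₃ := fun x => A i x + t i) (α := α) (p := p) (q := q)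
    (b := ψ (A i (ψ.symm z₁) + t i) - z₁) (z₁ := z₁) (c := 0)
    ⟨fun z => ψ.apply_symm_apply z, hF.1, hF.2.1.isBounded, hf₁, hf₂, hs3, hirr, hα1,
      hker _ _, hker _ _, hp, hq, add_pos (norm_pos_iff.2 hp) (norm_pos_iff.2 hq), ?_, hfix,
      fun x => ?_, fun h2 => hi (ψ.injective ?_)⟩
  · exact ψ.injective.comp ((hinj i).comp ψ.symm.injective)
  · change ψ (A i x + t i) - z₁ = ψ (A i (ψ.symm (ψ x - z₁))) + (ψ (A i (ψ.symm z₁) + t i) - z₁)
    rw [map_sub ψ.symm, ψ.symm_apply_apply, map_sub, map_sub, map_add, map_add]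
    ring
  · rw [ψ.apply_symm_apply]
    exact sub_eq_zero.1 h2

end

section examples

variable {d : ℕ} (hd : 2 ≤ d)

theorem sm_AA {m : ℕ} {A : Fin m → EuclideanSpace ℝ (Fin d) →L[ℝ] EuclideanSpace ℝ (Fin d)}
    {t : Fin m → EuclideanSpace ℝ (Fin d)} {F : Set (EuclideanSpace ℝ (Fin d))}
    (hF : IsSelfAffineSet A t F) {i : Fin m} {r : ℝ} {B : ℂ →L[ℝ] ℂ} (hA : A i = AA d hd r B) :
    Sm (PP d hd) (II d hd) F (fun x => A i x + t i) (AA d hd r B) B := by
  refine ⟨fun x hx => ?_, fun x y => ?_, fun x => PP_AA hd r B x, fun z => AA_II hd r B z⟩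
  · rw [hF.2.2]
    exact Set.mem_iUnion.2 ⟨i, x, hx, rfl⟩
  · rw [add_sub_add_right_eq_sub, ← map_sub, hA]

/-- The exceptional translations: the induced maps of the plane have a common fixed point. -/
def VV {m : ℕ} (B : Fin m → ℂ →L[ℝ] ℂ) : Submodule ℝ (Fin m → EuclideanSpace ℝ (Fin d)) where
  carrier := {t | ∃ z : ℂ, ∀ i, B i z + PP d hd (t i) = z}
  zero_mem' := ⟨0, fun i => by rw [map_zero, Pi.zero_apply, map_zero, add_zero]⟩
  add_mem' := by
    rintro t t' ⟨z, hz⟩ ⟨z', hz'⟩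
    refine ⟨z + z', fun i => ?_⟩
    rw [map_add, Pi.add_apply, map_add]
    linear_combination hz i + hz' i
  smul_mem' := by
    rintro c t ⟨z, hz⟩
    refine ⟨c • z, fun i => ?_⟩
    rw [map_smul, Pi.smul_apply, map_smul, ← smul_add, hz i]

theorem mem_VV {m : ℕ} {B : Fin m → ℂ →L[ℝ] ℂ} {t : Fin m → EuclideanSpace ℝ (Fin d)} :
    t ∈ VV hd B ↔ ∃ z : ℂ, ∀ i, B i z + PP d hd (t i) = z := Iff.rfl

/-- The examples in all dimensions. -/
theorem ex_all {d : ℕ} (hd : 2 ≤ d) {m : ℕ} (hm : 2 ≤ m) {ε : ℝ} (hε : 0 < ε) :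
    ∃ (A : Fin m → EuclideanSpace ℝ (Fin d) →L[ℝ] EuclideanSpace ℝ (Fin d))
      (V : Submodule ℝ (Fin m → EuclideanSpace ℝ (Fin d))),
      (∀ i, Function.Bijective (A i)) ∧ (∀ i, ‖A i‖ < 1 / 2) ∧ V ≠ ⊤ ∧
      ∀ t ∉ V, ∀ F : Set (EuclideanSpace ℝ (Fin d)), IsSelfAffineSet A t F →
        lowerDim F ≤ ENNReal.ofReal ε ∧ 1 ≤ assouadDim F := by
  have hm0 : (0 : ℝ) < m := by
    have h1 : 0 < m := by omega
    exact_mod_cast h1
  -- the size of the maps
  obtain ⟨r, hr0, hr1, hr2⟩ : ∃ r : ℝ, 0 < r ∧ 17 * r < 1 / 2 ∧ m * (17 * r) ^ ε ≤ 1 := by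
    have hu : 0 < ((m : ℝ)⁻¹) ^ (ε⁻¹) := Real.rpow_pos_of_pos (inv_pos.2 hm0) _
    refine ⟨min (1 / 35) (((m : ℝ)⁻¹) ^ (ε⁻¹) / 17), lt_min (by norm_num) (by positivity), ?_, ?_⟩
    · have h1 := min_le_left (1 / 35) (((m : ℝ)⁻¹) ^ (ε⁻¹) / 17)
      linarith
    · have h1 := min_le_right (1 / 35) (((m : ℝ)⁻¹) ^ (ε⁻¹) / 17)
      have h2 : 17 * min (1 / 35) (((m : ℝ)⁻¹) ^ (ε⁻¹) / 17) ≤ ((m : ℝ)⁻¹) ^ (ε⁻¹) := by linarith
      have h3 : 0 ≤ 17 * min (1 / 35) (((m : ℝ)⁻¹) ^ (ε⁻¹) / 17) :=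
        mul_nonneg (by norm_num) (le_min (by norm_num) (by positivity))
      have h4 := Real.rpow_le_rpow h3 h2 hε.le
      rw [← Real.rpow_mul (inv_pos.2 hm0).le, inv_mul_cancel₀ hε.ne', Real.rpow_one] at h4
      calc (m : ℝ) * (17 * min (1 / 35) (((m : ℝ)⁻¹) ^ (ε⁻¹) / 17)) ^ ε
          ≤ m * (m : ℝ)⁻¹ := mul_le_mul_of_nonneg_left h4 hm0.le
        _ = 1 := mul_inv_cancel₀ hm0.ne'
  have hrne : r ≠ 0 := hr0.ne'
  let α : ℂ := (r : ℂ) * Complex.exp Complex.I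
  have hαn : ‖α‖ = r := norm_rexp hr0.le
  have h2r : ‖(2 * r : ℂ)‖ = 2 * r := by
    rw [norm_mul, Complex.norm_real, Real.norm_of_nonneg hr0.le]
    norm_num
  have hrn : ‖(r : ℂ)‖ = r := by
    rw [Complex.norm_real, Real.norm_of_nonneg hr0.le]
  let i₀ : Fin m := ⟨0, by omega⟩
  let i₁ : Fin m := ⟨1, by omega⟩
  have hi01 : i₁ ≠ i₀ := by
    intro h
    exact absurd (congrArg Fin.val h) (by norm_num [i₀, i₁])
  let B : Fin m → ℂ →L[ℝ] ℂ := fun i => if i = i₀ then rl α 0 else rl (2 * r) r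
  have hB0 : B i₀ = rl α 0 := if_pos rfl
  have hB1 : B i₁ = rl (2 * r) r := if_neg hi01
  have hBinj : ∀ i, Function.Injective (B i) := by
    intro i
    by_cases h : i = i₀
    · rw [show B i = rl α 0 from if_pos h]
      apply rl_inj
      rw [hαn, norm_zero]
      exact hrne
    · rw [show B i = rl (2 * r) r from if_neg h]
      apply rl_inj
      rw [h2r, hrn]
      intro h2
      linarith
  have hBn : ∀ i, ‖B i‖ ≤ 3 * r := by
    intro i
    by_cases h : i = i₀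
    · rw [show B i = rl α 0 from if_pos h]
      refine (rl_norm _ _).trans ?_
      rw [hαn, norm_zero]
      linarith
    · rw [show B i = rl (2 * r) r from if_neg h]
      refine (rl_norm _ _).trans ?_
      rw [h2r, hrn]
      linarith
  have hnorm : ∀ i, ‖AA d hd r (B i)‖ ≤ 17 * r := fun i => AA_norm hd hr0.le (hBn i)
  have hα0 : (1 : ℂ) - α ≠ 0 := by
    intro h2
    have h3 : α = 1 := (sub_eq_zero.1 h2).symm
    rw [h3, norm_one] at hαn
    linarith
  refine ⟨fun i => AA d hd r (B i), VV hd B, fun i => AA_bij hd hrne (hBinj i),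
    fun i => (hnorm i).trans_lt hr1, ?_, ?_⟩
  · intro htop
    have h1 : (fun i => if i = i₁ then II d hd 1 else 0 : Fin m → EuclideanSpace ℝ (Fin d)) ∈
        VV hd B := by
      rw [htop]
      trivial
    obtain ⟨z, hz⟩ := (mem_VV hd).1 h1
    have h2 := hz i₀
    rw [hB0, if_neg (fun h => hi01 h.symm), map_zero, add_zero, rl_apply, zero_mul, add_zero] at h2
    have h3 : z = 0 := by
      have h4 : (1 - α) * z = 0 := by linear_combination -h2
      exact (mul_eq_zero.1 h4).resolve_left hα0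
    have h4 := hz i₁
    rw [if_pos rfl, PP_II, h3, map_zero, zero_add] at h4
    exact one_ne_zero h4
  · intro t ht F hF
    set z₁ : ℂ := PP d hd (t i₀) / (1 - α) with hz₁
    have hz : PP d hd (t i₀) = (1 - α) * z₁ := by
      rw [hz₁, mul_div_cancel₀ _ hα0]
    obtain ⟨i, hi⟩ : ∃ i, B i z₁ + PP d hd (t i) ≠ z₁ := by
      by_contra hcon
      exact ht ⟨z₁, fun i => by
        by_contra h3
        exact hcon ⟨i, h3⟩⟩
    have hA0 : AA d hd r (B i₀) = AA d hd r (rl α 0) := by rw [hB0]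
    have hA1 : AA d hd r (B i₁) = AA d hd r (rl (2 * r) r) := by rw [hB1]
    have hf₁ := sm_AA hd hF (i := i₀) hA0
    have hf₂ := sm_AA hd hF (i := i₁) hA1
    have hf₃ := sm_AA hd hF (i := i) (r := r) (B := B i) rfl
    have hP : ∀ (k : Fin m) (x : EuclideanSpace ℝ (Fin d)),
        PP d hd (AA d hd r (B k) x + t k) = B k (PP d hd x) + PP d hd (t k) := by
      intro k x
      rw [map_add, PP_AA]
    have hfix : ∀ x, PP d hd (AA d hd r (B i₀) x + t i₀) - z₁ = α * (PP d hd x - z₁) := by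
      intro x
      rw [hP, hz, hB0, rl_apply]
      ring
    have hnt : F.Nontrivial := by
      by_contra hns
      rw [Set.not_nontrivial_iff] at hns
      obtain ⟨x, hx⟩ := hF.1
      have h1 : AA d hd r (B i₀) x + t i₀ = x := hns (hf₁.maps x hx) hx
      have h2 : AA d hd r (B i) x + t i = x := hns (hf₃.maps x hx) hx
      have h3 := hfix x
      rw [h1] at h3
      have h4 : (1 - α) * (PP d hd x - z₁) = 0 := by linear_combination h3
      have h5 : PP d hd x = z₁ := sub_eq_zero.1 ((mul_eq_zero.1 h4).resolve_left hα0)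
      have h6 := hP i x
      rw [h2, h5] at h6
      exact hi h6.symm
    refine ⟨?_, ?_⟩
    · refine lowerDim_le_of_sum hF hnt (fun k => AA_pos hd hrne (hBinj k))
        (fun k => (hnorm k).trans_lt (by linarith)) hε ?_
      calc ∑ k : Fin m, ‖AA d hd r (B k)‖ ^ ε ≤ ∑ _k : Fin m, (17 * r) ^ ε :=
            Finset.sum_le_sum fun k _ => Real.rpow_le_rpow (norm_nonneg _) (hnorm k) hε.le
        _ = m * (17 * r) ^ ε := by
            rw [Finset.sum_const, Finset.card_univ, Fintype.card_fin, nsmul_eq_mul]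
        _ ≤ 1 := hr2
    · refine one_le_assouad (P := PP d hd) (ι := II d hd) (α := α) (p := 2 * r) (q := r)
        (b := B i z₁ + PP d hd (t i) - z₁) (z₁ := z₁) (c := r)
        ⟨PP_II hd, hF.1, hF.2.1.isBounded, hf₁, hf₂, hf₃, irr_exp hrne, by rw [hαn]; linarith,
          fun y hy => ?_, fun y hy => ?_, ?_, ?_, ?_, hBinj i, hfix, fun x => ?_,
          sub_ne_zero.2 hi⟩
      · rw [AA_ker hd _ hy, norm_smul, Real.norm_of_nonneg hr0.le, hαn]
      · rw [AA_ker hd _ hy, norm_smul, Real.norm_of_nonneg hr0.le]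
      · intro h
        rw [h, norm_zero] at h2r
        linarith
      · intro h
        rw [h, norm_zero] at hrn
        linarith
      · rw [h2r, hrn]
        linarith
      · rw [hP, map_sub]
        ring

end examples

end Pool.Agent.MP_b039ef_an.SG
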