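import Pool.Agent.Lib.MP_b039ef_an.Cover

/-!
# MP_b039ef_an, project SG (sure gap): definitions

Text: `/team-store/TEXT_b039ef_SG.md`.  `P : E → ℂ` is a projection with section `ι`; all maps of
the system induce maps of the plane.  In the plane theorem `P` is a linear isomorphism.
-/

set_option autoImplicit false

noncomputable section

namespace Pool.Agent.MP_b039ef_an.SG

open Complex

/-- the real linear map `z ↦ p z + q conj z` -/
def rl (p q : ℂ) : ℂ →L[ℝ] ℂ :=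
  p • ContinuousLinearMap.id ℝ ℂ + q • (Complex.conjCLE : ℂ →L[ℝ] ℂ)

@[simp] theorem rl_apply (p q z : ℂ) : rl p q z = p * z + q * (starRingEnd ℂ) z := rfl

variable {E : Type} [NormedAddCommGroup E] [NormedSpace ℝ E]

/-- `f` is an affine map with linear part `L` which maps `F` to `F`, and `L` induces the linear map
`B` of the plane -/
structure Sm (P : E →L[ℝ] ℂ) (ι : ℂ →L[ℝ] E) (F : Set E) (f : E → E) (L : E →L[ℝ] E)
    (B : ℂ →L[ℝ] ℂ) : Prop where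
  maps : ∀ x ∈ F, f x ∈ F
  lin : ∀ x y, f x - f y = L (x - y)
  proj : ∀ x, P (L x) = B (P x)
  sec : ∀ z, L (ι z) = ι (B z)

namespace Sm

variable {P : E →L[ℝ] ℂ} {ι : ℂ →L[ℝ] E} {F : Set E} {f g : E → E} {L M : E →L[ℝ] E}
  {B C : ℂ →L[ℝ] ℂ}

theorem comp (h : Sm P ι F f L B) (h' : Sm P ι F g M C) : Sm P ι F (f ∘ g) (L * M) (B * C) where
  maps x hx := h.maps _ (h'.maps _ hx)
  lin x y := by
    change f (g x) - f (g y) = L (M (x - y))
    rw [h.lin, h'.lin]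
  proj x := by
    change P (L (M x)) = B (C (P x))
    rw [h.proj, h'.proj]
  sec z := by
    change L (M (ι z)) = ι (B (C z))
    rw [h'.sec, h.sec]

theorem one : Sm P ι F id 1 1 where
  maps _ hx := hx
  lin _ _ := rfl
  proj _ := rfl
  sec _ := rfl

theorem iter (h : Sm P ι F f L B) (n : ℕ) : Sm P ι F (f^[n]) (L ^ n) (B ^ n) := by
  induction n with
  | zero =>
    rw [Function.iterate_zero, pow_zero, pow_zero]
    exact one
  | succ n ih =>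
    rw [Function.iterate_succ', pow_succ', pow_succ']
    exact h.comp ih

end Sm

/-- the hypotheses: `f₁` induces `z ↦ z₁ + α (z - z₁)`, a rotation by an irrational angle followed
by a contraction, `f₂` induces a map which is not conformal, `f₃` does not fix `z₁` -/
structure Sys (P : E →L[ℝ] ℂ) (ι : ℂ →L[ℝ] E) (F : Set E) (f₁ f₂ f₃ : E → E)
    (L₁ L₂ L₃ : E →L[ℝ] E) (B₃ : ℂ →L[ℝ] ℂ) (α p q b z₁ : ℂ) (c : ℝ) : Prop where
  sec : ∀ z, P (ι z) = z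
  ne : F.Nonempty
  bdd : Bornology.IsBounded F
  s1 : Sm P ι F f₁ L₁ (rl α 0)
  s2 : Sm P ι F f₂ L₂ (rl p q)
  s3 : Sm P ι F f₃ L₃ B₃
  irr : ∀ n : ℕ, 0 < n → (α ^ n).im ≠ 0
  lt : ‖α‖ < 1
  k1 : ∀ y, P y = 0 → ‖L₁ y‖ ≤ ‖α‖ * ‖y‖
  k2 : ∀ y, P y = 0 → ‖L₂ y‖ ≤ c * ‖y‖
  hp : p ≠ 0
  hq : q ≠ 0
  hc : c < ‖p‖ + ‖q‖
  inj : Function.Injective B₃
  fix : ∀ x, P (f₁ x) - z₁ = α * (P x - z₁)
  b3 : ∀ x, P (f₃ x) - z₁ = B₃ (P x - z₁) + b
  hb : b ≠ 0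

/-- `f` maps `F` into itself and the image is, up to relative errors `η`, an affine copy in the
direction `ι ω` of the projection `x ↦ Re (β P x)` -/
def Ndl (P : E →L[ℝ] ℂ) (ι : ℂ →L[ℝ] E) (F : Set E) (β : ℂ) (η : ℝ) (f : E → E) (ρ : ℝ)
    (ω : ℂ) : Prop :=
  (∀ x ∈ F, f x ∈ F) ∧ 0 < ρ ∧ ‖ω‖ = 1 ∧
    ∀ x y, ‖f x - f y - (ρ * (β * P (x - y)).re) • ι ω‖ ≤ η * ρ * ‖x - y‖

/-- some projection of `F` contains an approximate arithmetic progression of length `M` -/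
def AP (P : E →L[ℝ] ℂ) (F : Set E) (M : ℕ) (ε : ℝ) : Prop :=
  ∃ (γ : ℂ) (δ c : ℝ) (x : ℕ → E), γ ≠ 0 ∧ 0 < δ ∧
    ∀ i < M, x i ∈ F ∧ |(γ * P (x i)).re - c - i * δ| ≤ ε * δ

theorem AP_one {P : E →L[ℝ] ℂ} {F : Set E} (hF : F.Nonempty) {ε : ℝ} (hε : 0 ≤ ε) :
    AP P F 1 ε := by
  obtain ⟨x, hx⟩ := hF
  refine ⟨1, 1, (P x).re, fun _ => x, one_ne_zero, one_pos, fun i hi => ⟨hx, ?_⟩⟩
  have h1 : i = 0 := by omega
  subst h1
  rw [one_mul, Nat.cast_zero, zero_mul, sub_self, sub_zero, abs_zero, mul_one]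
  exact hε

end Pool.Agent.MP_b039ef_an.SG
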