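import Pool.Agent.Lib.MP_b039ef_an_SG.StB

/-!
# MP_b039ef_an, project SG: the Assouad dimension is at least one
-/

set_option autoImplicit false

noncomputable section

namespace Pool.Agent.MP_b039ef_an.SG

open Complex
open scoped ENNReal NNReal

variable {E : Type} [NormedAddCommGroup E] [NormedSpace ℝ E] {P : E →L[ℝ] ℂ} {ι : ℂ →L[ℝ] E}
  {F : Set E} {f₁ f₂ f₃ : E → E} {L₁ L₂ L₃ : E →L[ℝ] E} {B₃ : ℂ →L[ℝ] ℂ} {α p q b z₁ : ℂ} {c : ℝ}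

/-- Separated points give a lower bound for the covering number.

PROOF.  `le_coverNum`: in a cover by `k` sets of diameter at most `r` no two of the points are in
the same set, so `M ≤ k` (choose for every point a set which contains it; injective map
`Fin M → Fin k`, `Fintype.card_le_of_injective`). -/
theorem coverNum_sep {S : Set E} {r : ℝ} (hr : 0 ≤ r) {M : ℕ} (y : ℕ → E)
    (hy : ∀ i < M, y i ∈ S) (hsep : ∀ i < M, ∀ j < M, i ≠ j → r < dist (y i) (y j)) :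
    (M : ℝ≥0∞) ≤ ((coverNum r S : ℕ∞) : ℝ≥0∞) := by
  refine le_coverNum r S M fun k U hU hS => ?_
  have h1 : ∀ i : Fin M, ∃ j : Fin k, y i ∈ U j := fun i => Set.mem_iUnion.1 (hS (hy i i.2))
  choose g hg using h1
  have hinj : Function.Injective g := by
    intro i j hij
    by_contra hne
    have h2 := hsep i i.2 j j.2 (fun h => hne (Fin.ext h))
    have h4 : y j ∈ U (g i) := by
      rw [hij]
      exact hg j
    have h3 := (Metric.edist_le_ediam_of_mem (hg i) h4).trans (hU (g i))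
    rw [edist_dist] at h3
    exact absurd ((ENNReal.ofReal_le_ofReal_iff hr).1 h3) (not_le.2 h2)
  have h2 := Fintype.card_le_of_injective g hinj
  rw [Fintype.card_fin, Fintype.card_fin] at h2
  exact_mod_cast h2

/-- A large piece of a needle.

PROOF.  `AP_pow` with `ε = 1 / 8` gives `γ, δ, c, x`; `exists_ndl` for `β = γ` and `η > 0` with
`η D ≤ δ / (4 ‖P‖)` (`D` bounds `‖x - y‖` on `F`; `‖P‖ > 0` because `P (ι 1) = 1`).
`1 = ‖ω‖ = ‖P (ι ω)‖ ≤ ‖P‖ ‖ι ω‖` and `‖ι ω‖ ≤ ‖ι‖`.  For `i ≠ j`: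
`|Re (γ P (x i - x j))| ≥ (|i - j| - 1 / 4) δ ≥ 3 δ / 4`, so
`‖f (x i) - f (x j)‖ ≥ ρ (3 δ / 4) / ‖P‖ - η ρ D ≥ ρ δ / (2 ‖P‖)`, and
`‖f (x i) - f (x 0)‖ ≤ ρ (M + 1) δ ‖ι‖ + η ρ D ≤ ρ δ M (2 ‖ι‖ + 1 / ‖P‖)`, `M = 2 ^ N ≥ 1`.
Take `r = ρ δ / (4 ‖P‖)`, `R = M K r`, `K = 4 (2 ‖ι‖ ‖P‖ + 1)`, `y i = f (x i)`. -/
theorem big_piece (h : Sys P ι F f₁ f₂ f₃ L₁ L₂ L₃ B₃ α p q b z₁ c) :
    ∃ K : ℝ, 4 ≤ K ∧ ∀ N : ℕ, ∃ (r : ℝ) (x₀ : E), 0 < r ∧ x₀ ∈ F ∧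
      ((2 : ℝ≥0∞) ^ N) ≤
        ((coverNum r (Metric.closedBall x₀ (2 ^ N * K * r) ∩ F) : ℕ∞) : ℝ≥0∞) := by
  obtain ⟨C, hC⟩ := Metric.isBounded_iff.1 h.bdd
  obtain ⟨D, hD⟩ : ∃ D, D = max C 1 := ⟨_, rfl⟩
  have hD0 : 0 < D := by
    rw [hD]
    exact lt_of_lt_of_le one_pos (le_max_right _ _)
  have hDF : ∀ x ∈ F, ∀ y ∈ F, ‖x - y‖ ≤ D := by
    intro x hx y hy
    rw [← dist_eq_norm, hD]
    exact (hC hx hy).trans (le_max_left _ _)
  obtain ⟨p₀, hp₀⟩ : ∃ p₀, p₀ = ‖P‖ := ⟨_, rfl⟩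
  obtain ⟨i₀, hi₀⟩ : ∃ i₀, i₀ = ‖ι‖ := ⟨_, rfl⟩
  have hi0 : 0 ≤ i₀ := by
    rw [hi₀]
    exact norm_nonneg _
  have hP1 : ∀ ω : ℂ, ‖ω‖ = 1 → 1 ≤ p₀ * ‖ι ω‖ := by
    intro ω hω
    rw [hp₀, ← hω]
    have h1 := P.le_opNorm (ι ω)
    rw [h.sec] at h1
    exact h1
  have hpp : 0 < p₀ := by
    by_contra h1
    have h2 : p₀ = 0 := le_antisymm (not_lt.1 h1) (by rw [hp₀]; exact norm_nonneg _)
    have h3 := hP1 1 norm_one
    rw [h2, zero_mul] at h3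
    linarith
  refine ⟨4 * (2 * i₀ * p₀ + 1), by nlinarith [mul_nonneg hi0 hpp.le], fun N => ?_⟩
  obtain ⟨γ, δ, c₀, x, hγ, hδ, hx⟩ := AP_pow h N (1 / 8) (by norm_num)
  have hη : 0 < δ / (4 * p₀ * D) := by positivity
  obtain ⟨f, ρ, ω, hf, hρ, hω, hN⟩ := exists_ndl h hγ hη
  have hM : 0 < 2 ^ N := by positivity
  have hsub : ∀ i j, (γ * P (x i - x j)).re = (γ * P (x i)).re - (γ * P (x j)).re := by
    intro i j
    rw [map_sub, mul_sub, Complex.sub_re]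
  have hs : ∀ i < 2 ^ N, ∀ j < 2 ^ N,
      |(γ * P (x i - x j)).re - ((i : ℝ) - j) * δ| ≤ δ / 4 := by
    intro i hi j hj
    have h1 := abs_le.1 (hx i hi).2
    have h2 := abs_le.1 (hx j hj).2
    rw [hsub, abs_le]
    constructor
    · linarith [h1.1, h1.2, h2.1, h2.2]
    · linarith [h1.1, h1.2, h2.1, h2.2]
  have hηD : ∀ i < 2 ^ N, ∀ j < 2 ^ N,
      δ / (4 * p₀ * D) * ρ * ‖x i - x j‖ ≤ ρ * δ / (4 * p₀) := by
    intro i hi j hj
    have h1 := hDF _ (hx i hi).1 _ (hx j hj).1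
    calc δ / (4 * p₀ * D) * ρ * ‖x i - x j‖ ≤ δ / (4 * p₀ * D) * ρ * D := by gcongr
      _ = ρ * δ / (4 * p₀) := by field_simp
  have hιω : ‖ι ω‖ ≤ i₀ := by
    have h1 := ι.le_opNorm ω
    rw [hω, mul_one] at h1
    rw [hi₀]
    exact h1
  have hιω' : 1 / p₀ ≤ ‖ι ω‖ := by
    rw [div_le_iff₀ hpp, mul_comm]
    exact hP1 ω hω
  have hsm : ∀ s : ℝ, ‖(ρ * s) • ι ω‖ = ρ * |s| * ‖ι ω‖ := by
    intro s
    rw [norm_smul, Real.norm_eq_abs, abs_mul, abs_of_pos hρ]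
  refine ⟨ρ * δ / (4 * p₀), f (x 0), by positivity, hf _ (hx 0 hM).1, ?_⟩
  have key := coverNum_sep (S := Metric.closedBall (f (x 0))
    (2 ^ N * (4 * (2 * i₀ * p₀ + 1)) * (ρ * δ / (4 * p₀))) ∩ F)
    (r := ρ * δ / (4 * p₀)) (by positivity) (M := 2 ^ N) (fun i => f (x i)) ?_ ?_
  · refine le_trans (le_of_eq ?_) key
    push_cast
    rfl
  · intro i hi
    refine ⟨?_, hf _ (hx i hi).1⟩
    rw [Metric.mem_closedBall, dist_eq_norm]
    have h1 := hN (x i) (x 0)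
    have h2 := hηD i hi 0 hM
    have h3 := norm_sub_norm_le (f (x i) - f (x 0)) ((ρ * (γ * P (x i - x 0)).re) • ι ω)
    rw [hsm] at h3
    have h4 := abs_le.1 (hs i hi 0 hM)
    have hiM : (i : ℝ) + 1 ≤ 2 ^ N := by exact_mod_cast hi
    have h5 : |(γ * P (x i - x 0)).re| ≤ 2 ^ N * δ := by
      have h6 : ((i : ℝ) + 1) * δ ≤ 2 ^ N * δ := by gcongr
      have h7 : (0 : ℝ) ≤ (i : ℝ) * δ := by positivity
      rw [Nat.cast_zero, sub_zero] at h4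
      rw [abs_le]
      constructor
      · nlinarith [h4.1, h4.2]
      · nlinarith [h4.1, h4.2]
    have h8 : ρ * |(γ * P (x i - x 0)).re| * ‖ι ω‖ ≤ ρ * (2 ^ N * δ) * i₀ := by gcongr
    have h9 : (2 : ℝ) ^ N * (4 * (2 * i₀ * p₀ + 1)) * (ρ * δ / (4 * p₀)) =
        2 * (ρ * (2 ^ N * δ) * i₀) + 4 * 2 ^ N * (ρ * δ / (4 * p₀)) := by
      field_simp
    have h10 : (1 : ℝ) ≤ 2 ^ N := one_le_pow₀ (by norm_num)
    have h11 : 0 ≤ ρ * δ / (4 * p₀) := by positivity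
    have h12 : 0 ≤ ρ * (2 ^ N * δ) * i₀ := by positivity
    have h13 : ρ * δ / (4 * p₀) ≤ 2 ^ N * (ρ * δ / (4 * p₀)) := le_mul_of_one_le_left h11 h10
    rw [h9]
    linarith
  · intro i hi j hj hij
    rw [dist_eq_norm]
    have h1 := hN (x i) (x j)
    have h2 := hηD i hi j hj
    have h3 := norm_sub_norm_le ((ρ * (γ * P (x i - x j)).re) • ι ω) (f (x i) - f (x j))
    rw [hsm, norm_sub_rev ((ρ * (γ * P (x i - x j)).re) • ι ω)] at h3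
    have h4 := abs_le.1 (hs i hi j hj)
    have h5 : 3 / 4 * δ ≤ |(γ * P (x i - x j)).re| := by
      rcases lt_or_gt_of_ne hij with h6 | h6
      · have h7 : (i : ℝ) + 1 ≤ j := by exact_mod_cast h6
        have h8 : ((i : ℝ) - j) * δ ≤ -1 * δ := by
          refine mul_le_mul_of_nonneg_right (by linarith) hδ.le
        have h9 := neg_le_abs (γ * P (x i - x j)).re
        linarith [h4.1, h4.2]
      · have h7 : (j : ℝ) + 1 ≤ i := by exact_mod_cast h6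
        have h8 : 1 * δ ≤ ((i : ℝ) - j) * δ := by
          refine mul_le_mul_of_nonneg_right (by linarith) hδ.le
        have h9 := le_abs_self (γ * P (x i - x j)).re
        linarith [h4.1, h4.2]
    have h8 : ρ * (3 / 4 * δ) * (1 / p₀) ≤ ρ * |(γ * P (x i - x j)).re| * ‖ι ω‖ := by gcongr
    have h9 : ρ * (3 / 4 * δ) * (1 / p₀) = 3 * (ρ * δ / (4 * p₀)) := by
      field_simp
    have h11 : 0 < ρ * δ / (4 * p₀) := by positivity
    show ρ * δ / (4 * p₀) < ‖f (x i) - f (x j)‖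
    linarith

/-- PROOF.  Let `s` be an exponent with constant `C` in the definition of `assouadDim`, and suppose
`s < 1`.  `big_piece`: `2 ^ N ≤ C (2 ^ N K) ^ s` for all `N`, that is
`(2 ^ (1 - s)) ^ N ≤ C K ^ s`: impossible for large `N`.  (`le_iInf₂`.) -/
theorem one_le_assouad (h : Sys P ι F f₁ f₂ f₃ L₁ L₂ L₃ B₃ α p q b z₁ c) :
    1 ≤ assouadDim F := by
  refine le_iInf₂ fun s hs => ?_
  by_contra hlt
  rw [not_le] at hlt
  have hs1 : (s : ℝ) < 1 := by exact_mod_cast hlt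
  obtain ⟨C, hC, H⟩ := hs
  obtain ⟨K, hK, hB⟩ := big_piece h
  have ha : (1 : ℝ) < 2 ^ (1 - (s : ℝ)) := Real.one_lt_rpow (by norm_num) (by linarith)
  obtain ⟨N, hN⟩ := pow_unbounded_of_one_lt (C * K ^ (s : ℝ)) ha
  obtain ⟨r, x₀, hr, hx₀, h1⟩ := hB N
  have h2 : (1 : ℝ) ≤ 2 ^ N := one_le_pow₀ (by norm_num)
  have h3 : (1 : ℝ) < 2 ^ N * K := by nlinarith
  have h4 : r < 2 ^ N * K * r := by nlinarith
  have h5 := h1.trans (H x₀ hx₀ r _ hr h4)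
  rw [mul_div_assoc, div_self hr.ne', mul_one] at h5
  have h6 : (2 : ℝ≥0∞) ^ N = ENNReal.ofReal (2 ^ N) := by
    rw [ENNReal.ofReal_pow (by norm_num), ENNReal.ofReal_ofNat]
  rw [h6, ENNReal.ofReal_le_ofReal_iff (by positivity),
    Real.mul_rpow (by positivity) (by linarith)] at h5
  have h7 : (0 : ℝ) < (2 ^ N) ^ (s : ℝ) := by positivity
  have h8 : ((2 : ℝ) ^ (1 - (s : ℝ))) ^ N * (2 ^ N) ^ (s : ℝ) = 2 ^ N := by
    rw [← Real.rpow_natCast, ← Real.rpow_mul (by norm_num), mul_comm (1 - (s : ℝ)),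
      Real.rpow_mul (by norm_num), Real.rpow_natCast, ← Real.rpow_add (by positivity),
      sub_add_cancel, Real.rpow_one]
  have h9 : ((2 : ℝ) ^ (1 - (s : ℝ))) ^ N * (2 ^ N) ^ (s : ℝ) ≤
      C * K ^ (s : ℝ) * (2 ^ N) ^ (s : ℝ) := by
    rw [h8]
    linarith
  have h10 := le_of_mul_le_mul_right h9 h7
  linarith

end Pool.Agent.MP_b039ef_an.SG
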