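import Pool.Agent.Lib.MP_b039ef_an_SG.Defs

/-!
# MP_b039ef_an, project SG: upper bound for the lower dimension
-/

set_option autoImplicit false

noncomputable section

namespace Pool.Agent.MP_b039ef_an.SG

open scoped ENNReal NNReal

variable {E : Type} [NormedAddCommGroup E] [NormedSpace ℝ E] {ι : Type} [Fintype ι]

/-- PROOF.  For every `i` choose a cover of `F` by `coverNum (r / ‖A i‖) F` sets of diameter at most
`r / ‖A i‖` (trivial if it is infinite), take their images under `x ↦ A i x + t i`; together they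
cover `F`, and their diameters are at most `r`. -/
theorem coverNum_le_sum {A : ι → E →L[ℝ] E} {t : ι → E} {F : Set E} (hF : IsSelfAffineSet A t F)
    (h0 : ∀ i, 0 < ‖A i‖) {r : ℝ} (hr : 0 < r) :
    coverNum r F ≤ ∑ i, coverNum (r / ‖A i‖) F := by
  classical
  by_cases htop : ∃ i, coverNum (r / ‖A i‖) F = ⊤
  · obtain ⟨i, hi⟩ := htop
    have h1 : coverNum (r / ‖A i‖) F ≤ ∑ i, coverNum (r / ‖A i‖) F :=
      Finset.single_le_sum (f := fun i => coverNum (r / ‖A i‖) F) (fun _ _ => zero_le)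
        (Finset.mem_univ i)
    rw [hi] at h1
    exact le_top.trans h1
  have htop' : ∀ i, coverNum (r / ‖A i‖) F ≠ ⊤ := fun i hi => htop ⟨i, hi⟩
  have h1 : ∀ i, ∃ (k : ℕ) (U : Fin k → Set E), coverNum (r / ‖A i‖) F = k ∧
      (∀ j, Metric.ediam (U j) ≤ ENNReal.ofReal (r / ‖A i‖)) ∧ F ⊆ ⋃ j, U j := by
    intro i
    have hne : {n : ℕ∞ | ∃ (k : ℕ) (U : Fin k → Set E), n = k ∧
        (∀ j, Metric.ediam (U j) ≤ ENNReal.ofReal (r / ‖A i‖)) ∧
          F ⊆ ⋃ j, U j}.Nonempty := by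
      by_contra h
      rw [Set.not_nonempty_iff_eq_empty] at h
      apply htop' i
      unfold coverNum
      rw [h, sInf_empty]
    obtain ⟨k, U, hk, h⟩ := csInf_mem hne
    exact ⟨k, U, hk, h⟩
  choose k U hk hU hF' using h1
  have hcard : Fintype.card (Σ i, Fin (k i)) = ∑ i, k i := by simp
  obtain ⟨e⟩ : Nonempty ((Σ i, Fin (k i)) ≃ Fin (Fintype.card (Σ i, Fin (k i)))) :=
    ⟨Fintype.equivFin _⟩
  have h2 := coverNum_le r F (Fintype.card (Σ i, Fin (k i)))
    (fun j => (fun x => A (e.symm j).1 x + t (e.symm j).1) '' U (e.symm j).1 (e.symm j).2)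
    (fun j => by
      have hl : LipschitzWith ‖A (e.symm j).1‖₊
          (fun x => A (e.symm j).1 x + t (e.symm j).1) :=
        LipschitzWith.of_dist_le_mul fun x y => by
          rw [dist_add_right]
          exact (A (e.symm j).1).lipschitz.dist_le_mul x y
      refine (hl.ediam_image_le _).trans ?_
      refine (mul_le_mul_right (hU _ _) _).trans (le_of_eq ?_)
      rw [← ENNReal.ofReal_coe_nnreal, ← ENNReal.ofReal_mul (NNReal.coe_nonneg _), coe_nnnorm,
        mul_div_cancel₀ r (h0 _).ne'])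
    (fun x hx => by
      have hx' := (le_of_eq hF.2.2) hx
      obtain ⟨i, y, hy, hxy⟩ := Set.mem_iUnion.1 hx'
      obtain ⟨j, hj⟩ := Set.mem_iUnion.1 (hF' i hy)
      refine Set.mem_iUnion.2 ⟨e ⟨i, j⟩, ?_⟩
      rw [Equiv.symm_apply_apply]
      exact ⟨y, hj, hxy⟩)
  refine h2.trans (le_of_eq ?_)
  rw [hcard]
  push_cast
  exact Finset.sum_congr rfl fun i _ => (hk i).symm

/-- PROOF.  `D = diam F > 0`, `a > 0` a lower bound of the `‖A i‖`, `b < 1` an upper bound,
`K = (D / a) ^ s`.  Claim: `coverNum r F ≤ K r ^ (-s)` for `0 < r ≤ D / a`.  For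
`D ≤ r ≤ D / a` one set is enough and `K r ^ (-s) ≥ 1`.  For `r < D` the numbers `r / ‖A i‖` are at
most `D / a` and at least `r / b`; use `coverNum_le_sum` and
`∑ K (r / ‖A i‖) ^ (-s) ≤ K r ^ (-s)`.  (Induction on `n` for `b ^ n D ≤ r`.) -/
theorem coverNum_le_rpow {A : ι → E →L[ℝ] E} {t : ι → E} {F : Set E} (hF : IsSelfAffineSet A t F)
    (hnt : F.Nontrivial) (h0 : ∀ i, 0 < ‖A i‖) (h1 : ∀ i, ‖A i‖ < 1) {s : ℝ} (hs : 0 < s)
    (hsum : ∑ i, ‖A i‖ ^ s ≤ 1) :
    ∃ K : ℝ, 0 < K ∧ ∀ r : ℝ, 0 < r → r < Metric.diam F →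
      ((coverNum r F : ℕ∞) : ℝ≥0∞) ≤ ENNReal.ofReal (K * r ^ (-s)) := by
  classical
  have hbdd : Bornology.IsBounded F := hF.2.1.isBounded
  have hD : 0 < Metric.diam F := by
    obtain ⟨x, hx, y, hy, hxy⟩ := hnt
    exact (dist_pos.2 hxy).trans_le (Metric.dist_le_diam_of_mem hbdd hx hy)
  have hne : Nonempty ι := by
    obtain ⟨x, hx⟩ := hF.1
    obtain ⟨i, _⟩ := Set.mem_iUnion.1 ((le_of_eq hF.2.2) hx)
    exact ⟨i⟩
  obtain ⟨i0, hi0⟩ := Finite.exists_min (fun i => ‖A i‖)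
  obtain ⟨i1, hi1⟩ := Finite.exists_max (fun i => ‖A i‖)
  set D := Metric.diam F with hDdef
  set a := ‖A i0‖ with ha
  set b := ‖A i1‖ with hb
  have ha0 : 0 < a := h0 i0
  have hb0 : 0 < b := h0 i1
  have hb1 : b < 1 := h1 i1
  have hK : 0 < (D / a) ^ s := Real.rpow_pos_of_pos (div_pos hD ha0) s
  have key : ∀ n : ℕ, ∀ r : ℝ, 0 < r → r ≤ D / a → b ^ n * D ≤ r →
      ((coverNum r F : ℕ∞) : ℝ≥0∞) ≤ ENNReal.ofReal ((D / a) ^ s * r ^ (-s)) := by
    intro n
    induction n with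
    | zero =>
      intro r hr hra hDr
      rw [pow_zero, one_mul] at hDr
      have h2 : coverNum r F ≤ ((1 : ℕ) : ℕ∞) := by
        refine coverNum_le r F 1 (fun _ => F) (fun _ => ?_) fun x hx =>
          Set.mem_iUnion.2 ⟨0, hx⟩
        refine Metric.ediam_le_of_forall_dist_le fun x hx y hy => ?_
        exact (Metric.dist_le_diam_of_mem hbdd hx hy).trans hDr
      have h3 : ((coverNum r F : ℕ∞) : ℝ≥0∞) ≤ (((1 : ℕ) : ℕ∞) : ℝ≥0∞) :=
        ENat.toENNReal_le.2 h2
      refine h3.trans ?_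
      rw [ENat.toENNReal_coe, Nat.cast_one, ENNReal.one_le_ofReal, Real.rpow_neg hr.le,
        ← div_eq_mul_inv, ← Real.div_rpow (div_pos hD ha0).le hr.le]
      exact Real.one_le_rpow ((one_le_div hr).2 hra) hs.le
    | succ n ih =>
      intro r hr hra hDr
      rcases le_or_gt D r with h | h
      · have h2 : coverNum r F ≤ ((1 : ℕ) : ℕ∞) := by
          refine coverNum_le r F 1 (fun _ => F) (fun _ => ?_) fun x hx =>
            Set.mem_iUnion.2 ⟨0, hx⟩
          refine Metric.ediam_le_of_forall_dist_le fun x hx y hy => ?_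
          exact (Metric.dist_le_diam_of_mem hbdd hx hy).trans h
        have h3 : ((coverNum r F : ℕ∞) : ℝ≥0∞) ≤ (((1 : ℕ) : ℕ∞) : ℝ≥0∞) :=
          ENat.toENNReal_le.2 h2
        refine h3.trans ?_
        rw [ENat.toENNReal_coe, Nat.cast_one, ENNReal.one_le_ofReal, Real.rpow_neg hr.le,
          ← div_eq_mul_inv, ← Real.div_rpow (div_pos hD ha0).le hr.le]
        exact Real.one_le_rpow ((one_le_div hr).2 hra) hs.le
      · have h2 := ENat.toENNReal_le.2 (coverNum_le_sum hF h0 hr)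
        have h3 : ((∑ i, coverNum (r / ‖A i‖) F : ℕ∞) : ℝ≥0∞) =
            ∑ i, ((coverNum (r / ‖A i‖) F : ℕ∞) : ℝ≥0∞) :=
          map_sum ENat.toENNRealRingHom _ _
        rw [h3] at h2
        refine h2.trans ?_
        have h4 : ∀ i, ((coverNum (r / ‖A i‖) F : ℕ∞) : ℝ≥0∞) ≤
            ENNReal.ofReal ((D / a) ^ s * r ^ (-s) * ‖A i‖ ^ s) := by
          intro i
          have hi := h0 i
          have h5 := ih (r / ‖A i‖) (div_pos hr hi) (by
            rw [div_le_div_iff₀ hi ha0]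
            nlinarith [hi0 i, h.le]) (by
            rw [le_div_iff₀ hi]
            rw [pow_succ] at hDr
            have h6 : b ^ n * D * ‖A i‖ ≤ b ^ n * D * b :=
              mul_le_mul_of_nonneg_left (hi1 i) (by positivity)
            linarith)
          refine h5.trans (le_of_eq ?_)
          congr 1
          rw [Real.div_rpow hr.le hi.le, Real.rpow_neg hi.le s, div_inv_eq_mul, mul_assoc]
        refine (Finset.sum_le_sum fun i _ => h4 i).trans ?_
        rw [← ENNReal.ofReal_sum_of_nonneg fun i _ => by positivity, ← Finset.mul_sum]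
        refine ENNReal.ofReal_le_ofReal ?_
        exact mul_le_of_le_one_right (by positivity) hsum
  refine ⟨(D / a) ^ s, hK, fun r hr hrD => ?_⟩
  obtain ⟨n, hn⟩ := exists_pow_lt_of_lt_one (div_pos hr hD) hb1
  refine key n r hr ?_ ?_
  · rw [le_div_iff₀ ha0]
    have ha1 : a < 1 := h1 i0
    nlinarith
  · rw [lt_div_iff₀ hD] at hn
    exact hn.le

/-- PROOF.  Let `s'` be an exponent in the definition of `lowerDim`, with the constant `C`; `x ∈ F`,
`R = diam F > 0`: `C (R / r) ^ s' ≤ coverNum r (closedBall x R ∩ F) ≤ coverNum r F ≤ K r ^ (-s)`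
for all `0 < r < R`, so `s' ≤ s`.  (`iSup₂_le`; monotonicity of `coverNum` in the set: a cover of
the bigger set is one of the smaller set, `sInf_le_sInf`.) -/
theorem lowerDim_le_of_sum {A : ι → E →L[ℝ] E} {t : ι → E} {F : Set E}
    (hF : IsSelfAffineSet A t F) (hnt : F.Nontrivial) (h0 : ∀ i, 0 < ‖A i‖) (h1 : ∀ i, ‖A i‖ < 1)
    {s : ℝ} (hs : 0 < s) (hsum : ∑ i, ‖A i‖ ^ s ≤ 1) : lowerDim F ≤ ENNReal.ofReal s := by
  classical
  obtain ⟨K, hK, hKr⟩ := coverNum_le_rpow hF hnt h0 h1 hs hsum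
  have hbdd : Bornology.IsBounded F := hF.2.1.isBounded
  have hD : 0 < Metric.diam F := by
    obtain ⟨x, hx, y, hy, hxy⟩ := hnt
    exact (dist_pos.2 hxy).trans_le (Metric.dist_le_diam_of_mem hbdd hx hy)
  obtain ⟨x, hx⟩ := hF.1
  unfold lowerDim
  refine iSup₂_le fun s' hs' => ?_
  obtain ⟨C, hC, h⟩ := hs'
  have hle : (s' : ℝ) ≤ s := by
    by_contra hlt
    rw [not_le] at hlt
    have hδ : 0 < (s' : ℝ) - s := sub_pos.2 hlt
    have h2 : ∀ r : ℝ, 0 < r → r < Metric.diam F →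
        C * Metric.diam F ^ (s' : ℝ) ≤ K * r ^ ((s' : ℝ) - s) := by
      intro r hr hrD
      have h3 := h x hx r (Metric.diam F) hr hrD le_rfl
      have h4 : coverNum r (Metric.closedBall x (Metric.diam F) ∩ F) ≤ coverNum r F := by
        unfold coverNum
        refine sInf_le_sInf ?_
        rintro m ⟨k, U, hm, hU, hS⟩
        exact ⟨k, U, hm, hU, Set.inter_subset_right.trans hS⟩
      have h5 := (h3.trans (ENat.toENNReal_le.2 h4)).trans (hKr r hr hrD)
      have h6 := (ENNReal.ofReal_le_ofReal_iff (by positivity)).1 h5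
      rw [Real.div_rpow hD.le hr.le, Real.rpow_neg hr.le] at h6
      rw [Real.rpow_sub hr]
      have hrs : 0 < r ^ (s' : ℝ) := Real.rpow_pos_of_pos hr _
      have h7 : C * Metric.diam F ^ (s' : ℝ) =
          C * (Metric.diam F ^ (s' : ℝ) / r ^ (s' : ℝ)) * r ^ (s' : ℝ) := by
        field_simp
      rw [h7]
      calc C * (Metric.diam F ^ (s' : ℝ) / r ^ (s' : ℝ)) * r ^ (s' : ℝ)
          ≤ K * (r ^ s)⁻¹ * r ^ (s' : ℝ) := mul_le_mul_of_nonneg_right h6 hrs.le
        _ = K * (r ^ (s' : ℝ) / r ^ s) := by ring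
    have h8 : Filter.Tendsto (fun r : ℝ => K * r ^ ((s' : ℝ) - s))
        (nhdsWithin 0 (Set.Ioi 0)) (nhds 0) := by
      have h9 : ContinuousAt (fun r : ℝ => K * r ^ ((s' : ℝ) - s)) 0 :=
        continuousAt_const.mul (Real.continuousAt_rpow_const 0 _ (Or.inr hδ.le))
      have h10 := h9.tendsto
      simp only [Real.zero_rpow hδ.ne', mul_zero] at h10
      exact h10.mono_left nhdsWithin_le_nhds
    have h11 : ∀ᶠ r : ℝ in nhdsWithin 0 (Set.Ioi 0),
        K * r ^ ((s' : ℝ) - s) < C * Metric.diam F ^ (s' : ℝ) :=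
      h8.eventually_lt_const (by positivity)
    have h12 : ∀ᶠ r : ℝ in nhdsWithin 0 (Set.Ioi 0), r < Metric.diam F :=
      (eventually_lt_nhds hD).filter_mono nhdsWithin_le_nhds
    obtain ⟨r, ⟨h13, h14⟩, h15⟩ := ((h11.and h12).and self_mem_nhdsWithin).exists
    exact absurd (h2 r h15 h14) (not_le.2 h13)
  rw [← ENNReal.ofReal_coe_nnreal]
  exact ENNReal.ofReal_le_ofReal hle

end Pool.Agent.MP_b039ef_an.SG
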