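import Pool.Agent.Lib.MP_b039ef_an_SG.Rot

/-!
# MP_b039ef_an, project SG: a rotation which makes the product hyperbolic
-/

set_option autoImplicit false

namespace Pool.Agent.MP_b039ef_an.SG

open Complex

private theorem choose_eps {P Q c : ℝ} (hP : 0 < P) (hQ : 0 < Q) (hc : c < P + Q) :
    ∃ ε : ℝ, 0 < ε ∧ ε < 1 ∧ ε * P < Q ∧ 2 * (ε * P) < P + Q - c := by
  have hd : 0 < P + Q - c := by linarith
  refine ⟨min (1 / 2) (min (Q / (2 * P)) ((P + Q - c) / (4 * P))),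
    lt_min (by norm_num) (lt_min (by positivity) (by positivity)), ?_, ?_, ?_⟩
  · exact lt_of_le_of_lt (min_le_left _ _) (by norm_num)
  · have h1 : min (1 / 2) (min (Q / (2 * P)) ((P + Q - c) / (4 * P))) ≤ Q / (2 * P) :=
      (min_le_right _ _).trans (min_le_left _ _)
    have h2 := mul_le_mul_of_nonneg_right h1 hP.le
    have h3 : Q / (2 * P) * P = Q / 2 := by
      field_simp
    rw [h3] at h2
    linarith
  · have h1 : min (1 / 2) (min (Q / (2 * P)) ((P + Q - c) / (4 * P))) ≤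
        (P + Q - c) / (4 * P) := (min_le_right _ _).trans (min_le_right _ _)
    have h2 := mul_le_mul_of_nonneg_right h1 hP.le
    have h3 : (P + Q - c) / (4 * P) * P = (P + Q - c) / 4 := by
      field_simp
    rw [h3] at h2
    linarith

private theorem sqrt_low {s y : ℝ} (hy : |y| ≤ s) : s - |y| ≤ √(s ^ 2 - y ^ 2) := by
  refine Real.le_sqrt_of_sq_le ?_
  have h1 : y ^ 2 = |y| ^ 2 := (sq_abs y).symm
  have h2 := abs_nonneg y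
  rw [h1]
  nlinarith

/-- PROOF.  `rot_dense` with `d = conj p / ‖p‖` and `ε` with `ε < 1`, `ε ‖p‖ < ‖q‖` and
`2 ε ‖p‖ < ‖p‖ + ‖q‖ - c`.  Let `r = ‖α‖ ^ a > 0`; `‖p α ^ a - r ‖p‖‖ ≤ ε r ‖p‖`, so
`Re (p α ^ a) ≥ r ‖p‖ (1 - ε) > 0`, `|Im (p α ^ a)| ≤ ε r ‖p‖ < r ‖q‖`, and
`√(x² - y²) ≥ x - |y|` for `|y| ≤ x` gives the last claim. -/
theorem choose_a {α p q : ℂ} {c : ℝ} (h : ∀ n : ℕ, 0 < n → (α ^ n).im ≠ 0) (hp : p ≠ 0)
    (hq : q ≠ 0) (hc : c < ‖p‖ + ‖q‖) :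
    ∃ a : ℕ, 0 < (p * α ^ a).re ∧ |(p * α ^ a).im| < ‖q‖ * ‖α‖ ^ a ∧
      c * ‖α‖ ^ a < (p * α ^ a).re + √((‖q‖ * ‖α‖ ^ a) ^ 2 - (p * α ^ a).im ^ 2) := by
  have hP : 0 < ‖p‖ := norm_pos_iff.2 hp
  have hQ : 0 < ‖q‖ := norm_pos_iff.2 hq
  have hPc : (‖p‖ : ℂ) ≠ 0 := by
    rw [Ne, Complex.ofReal_eq_zero]
    exact hP.ne'
  have hα : 0 < ‖α‖ := by
    refine norm_pos_iff.2 fun h0 => h 1 one_pos ?_
    rw [h0]
    simp
  obtain ⟨ε, he0, he1, he2, he3⟩ := choose_eps hP hQ hc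
  have hd : ‖(starRingEnd ℂ) p / (‖p‖ : ℂ)‖ = 1 := by
    rw [norm_div, Complex.norm_conj, Complex.norm_real, norm_norm, div_self hP.ne']
  obtain ⟨n, -, hn⟩ := rot_dense h hd he0 0
  have hr : 0 < ‖α‖ ^ n := pow_pos hα n
  have h1 : p * α ^ n - ((‖α‖ ^ n * ‖p‖ : ℝ) : ℂ) =
      p * (α ^ n - (‖α‖ : ℂ) ^ n * ((starRingEnd ℂ) p / (‖p‖ : ℂ))) := by
    have h2 : p * (starRingEnd ℂ) p = (‖p‖ : ℂ) ^ 2 := by
      rw [Complex.mul_conj, Complex.normSq_eq_norm_sq]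
      push_cast
      rfl
    push_cast
    field_simp
    linear_combination ((‖α‖ : ℂ) ^ n) * h2
  have h2 : ‖p * α ^ n - ((‖α‖ ^ n * ‖p‖ : ℝ) : ℂ)‖ ≤ ‖α‖ ^ n * (ε * ‖p‖) := by
    rw [h1, norm_mul]
    have := mul_le_mul_of_nonneg_left hn hP.le
    linarith
  have hre := (Complex.abs_re_le_norm _).trans h2
  have him := (Complex.abs_im_le_norm _).trans h2
  rw [Complex.sub_re, Complex.ofReal_re] at hre
  rw [Complex.sub_im, Complex.ofReal_im, sub_zero] at him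
  have hre' := (abs_le.1 hre).1
  have h3 : ‖α‖ ^ n * (ε * ‖p‖) < ‖α‖ ^ n * ‖q‖ := mul_lt_mul_of_pos_left he2 hr
  have h4 : |(p * α ^ n).im| < ‖q‖ * ‖α‖ ^ n := by
    rw [mul_comm ‖q‖]
    exact lt_of_le_of_lt him h3
  have h5 := sqrt_low h4.le
  have h6 : ‖α‖ ^ n * (2 * (ε * ‖p‖)) < ‖α‖ ^ n * (‖p‖ + ‖q‖ - c) :=
    mul_lt_mul_of_pos_left he3 hr
  have h7 : ‖α‖ ^ n * (ε * ‖p‖) < ‖α‖ ^ n * ‖p‖ := by
    refine mul_lt_mul_of_pos_left ?_ hr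
    nlinarith
  refine ⟨n, ?_, h4, ?_⟩
  · linarith
  · linarith

end Pool.Agent.MP_b039ef_an.SG
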