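import Pool.Agent.Lib.MP_b039ef_an_SG.RankA
import Pool.Agent.Lib.MP_b039ef_an_SG.RankB

/-!
# MP_b039ef_an, project SG: needles in all directions
-/

set_option autoImplicit false

noncomputable section

namespace Pool.Agent.MP_b039ef_an.SG

open Complex

variable {E : Type} [NormedAddCommGroup E] [NormedSpace ℝ E] {P : E →L[ℝ] ℂ} {ι : ℂ →L[ℝ] E}
  {F : Set E} {f₁ f₂ f₃ : E → E} {L₁ L₂ L₃ : E →L[ℝ] E} {B₃ : ℂ →L[ℝ] ℂ} {α p q b z₁ : ℂ} {c : ℝ}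

/-- Needles in all directions.

PROOF.  Let `a` be as in `choose_a`.  `g = f₂ ∘ f₁^[a]` has linear part `L = L₂ * L₁ ^ a`
(`Sm.comp`, `Sm.iter`) and induces `T = rl (p α ^ a) (q conj (α ^ a))` in the plane.  `hyp_pow`
for `T` gives `μ, l, β₀, ω`.  With `c' = max c 0`, `s = c' ‖α‖ ^ a < μ`: for `P y = 0`,
`‖L y‖ ≤ s ‖y‖` and `P (L y) = 0`, so `‖L ^ n y‖ ≤ s ^ n ‖y‖`.
For `v : E`: `v = ι (P v) + (v - ι (P v))`, so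
`L ^ n v = ι (T ^ n (P v)) + L ^ n (v - ι (P v))` differs from `μ ^ n Re (β₀ P v) ι ω` by at most
`(|l| ^ n C + s ^ n C) ‖v‖`, `C` depending on `‖P‖, ‖ι‖, ‖β₀‖` only.
Now `f = g^[n] ∘ f₁^[k]`: `f x - f y = L ^ n v`, `v = L₁ ^ k (x - y)`, `P v = α ^ k P (x - y)`.
By `rot_dense` choose `k` such that `‖β₀ α ^ k - t β‖ ≤ ε ‖β₀‖ ‖α‖ ^ k`, where
`t = ‖β₀‖ ‖α‖ ^ k / ‖β‖ > 0`, `ε` small; `ρ = μ ^ n t`.  Then
`‖f x - f y - ρ Re (β P (x - y)) ι ω‖ ≤ μ ^ n ε ‖β₀‖ ‖α‖ ^ k ‖P‖ ‖ι‖ ‖x - y‖ +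
(|l| ^ n + s ^ n) C ‖L₁ ^ k‖ ‖x - y‖`.  The first summand is `ρ ε ‖β‖ ‖P‖ ‖ι‖ ‖x - y‖`; for the
second one choose `n` large (`|l| < μ`, `s < μ`) after `k`. -/
theorem exists_ndl (h : Sys P ι F f₁ f₂ f₃ L₁ L₂ L₃ B₃ α p q b z₁ c) {β : ℂ} (hβ : β ≠ 0)
    {η : ℝ} (hη : 0 < η) : ∃ (f : E → E) (ρ : ℝ) (ω : ℂ), Ndl P ι F β η f ρ ω := by
  have hα0 : 0 < ‖α‖ := by
    rw [norm_pos_iff]
    intro h0
    have h1 := h.irr 1 one_pos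
    rw [h0] at h1
    simp at h1
  have hc' : max c 0 < ‖p‖ + ‖q‖ :=
    max_lt h.hc (add_pos (norm_pos_iff.2 h.hp) (norm_pos_iff.2 h.hq))
  obtain ⟨a, ha1, ha2, ha3⟩ := choose_a h.irr h.hp h.hq hc'
  have hq' : ‖q * (starRingEnd ℂ) (α ^ a)‖ = ‖q‖ * ‖α‖ ^ a := by
    rw [norm_mul, RCLike.norm_conj, norm_pow]
  rw [← hq'] at ha2
  obtain ⟨μ, l, β₀, ω, hμ, hl, hβ₀, hω, hT⟩ := hyp_pow ha1 ha2
  have hμ0 : 0 < μ := (abs_nonneg l).trans_lt hl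
  obtain ⟨s, hs⟩ : ∃ s : ℝ, s = max c 0 * ‖α‖ ^ a := ⟨_, rfl⟩
  have hs0 : 0 ≤ s := by
    rw [hs]
    positivity
  have hsμ : s < μ := by
    rw [hs, hμ, hq']
    exact ha3
  -- the map `g`
  have hrot : ∀ (k : ℕ) (z : ℂ), ((rl α 0) ^ k) z = α ^ k * z := by
    intro k
    induction k with
    | zero =>
      intro z
      rw [pow_zero, pow_zero, one_mul]
      rfl
    | succ k ih =>
      intro z
      rw [pow_succ', pow_succ']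
      change rl α 0 (((rl α 0) ^ k) z) = _
      rw [ih, rl_apply, zero_mul, add_zero, mul_assoc]
  have hg0 := h.s2.comp (h.s1.iter a)
  have hB : rl p q * (rl α 0) ^ a = rl (p * α ^ a) (q * (starRingEnd ℂ) (α ^ a)) := by
    ext z
    change rl p q (((rl α 0) ^ a) z) = _
    rw [hrot, rl_apply, rl_apply, map_mul]
    ring
  rw [hB] at hg0
  have hg : ∀ n : ℕ, Sm P ι F ((f₂ ∘ f₁^[a])^[n]) ((L₂ * L₁ ^ a) ^ n)
      ((rl (p * α ^ a) (q * (starRingEnd ℂ) (α ^ a))) ^ n) := fun n => hg0.iter n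
  -- the kernel
  have hk1 : ∀ (k : ℕ) (y : E), P y = 0 → ‖(L₁ ^ k) y‖ ≤ ‖α‖ ^ k * ‖y‖ ∧ P ((L₁ ^ k) y) = 0 := by
    intro k y hy
    have h2 : ∀ k : ℕ, P ((L₁ ^ k) y) = 0 := by
      intro k
      rw [(h.s1.iter k).proj, hy, map_zero]
    refine ⟨?_, h2 k⟩
    induction k with
    | zero =>
      rw [pow_zero, pow_zero, one_mul]
      exact le_of_eq rfl
    | succ k ih =>
      rw [pow_succ', pow_succ']
      change ‖L₁ ((L₁ ^ k) y)‖ ≤ _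
      refine (h.k1 _ (h2 k)).trans ?_
      rw [mul_assoc]
      exact mul_le_mul_of_nonneg_left ih (norm_nonneg _)
  have hk2 : ∀ (n : ℕ) (y : E), P y = 0 → ‖((L₂ * L₁ ^ a) ^ n) y‖ ≤ s ^ n * ‖y‖ := by
    intro n y hy
    induction n with
    | zero =>
      rw [pow_zero, pow_zero, one_mul]
      exact le_of_eq rfl
    | succ n ih =>
      have h2 : P (((L₂ * L₁ ^ a) ^ n) y) = 0 := by
        rw [(hg n).proj, hy, map_zero]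
      rw [pow_succ', pow_succ']
      change ‖L₂ ((L₁ ^ a) (((L₂ * L₁ ^ a) ^ n) y))‖ ≤ _
      obtain ⟨h3, h4⟩ := hk1 a _ h2
      calc ‖L₂ ((L₁ ^ a) (((L₂ * L₁ ^ a) ^ n) y))‖
          ≤ c * ‖(L₁ ^ a) (((L₂ * L₁ ^ a) ^ n) y)‖ := h.k2 _ h4
        _ ≤ max c 0 * ‖(L₁ ^ a) (((L₂ * L₁ ^ a) ^ n) y)‖ :=
            mul_le_mul_of_nonneg_right (le_max_left _ _) (norm_nonneg _)
        _ ≤ max c 0 * (‖α‖ ^ a * ‖((L₂ * L₁ ^ a) ^ n) y‖) :=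
            mul_le_mul_of_nonneg_left h3 (le_max_right _ _)
        _ = s * ‖((L₂ * L₁ ^ a) ^ n) y‖ := by rw [hs, mul_assoc]
        _ ≤ s * (s ^ n * ‖y‖) := mul_le_mul_of_nonneg_left ih hs0
        _ = s * s ^ n * ‖y‖ := by ring
  obtain ⟨C₁, hC₁⟩ : ∃ C₁ : ℝ, C₁ = ‖ι‖ * (‖P‖ + ‖β₀‖ * ‖P‖) + (1 + ‖ι‖ * ‖P‖) := ⟨_, rfl⟩
  have hC₁0 : 0 < C₁ := by
    rw [hC₁]
    positivity
  have hre : ∀ (u : ℂ) (v : E), |(u * P v).re| ≤ ‖u‖ * ‖P‖ * ‖v‖ := by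
    intro u v
    refine (Complex.abs_re_le_norm _).trans ?_
    rw [norm_mul, mul_assoc]
    exact mul_le_mul_of_nonneg_left (P.le_opNorm v) (norm_nonneg _)
  have hιω : ‖ι ω‖ ≤ ‖ι‖ := by
    have h2 := ι.le_opNorm ω
    rwa [hω, mul_one] at h2
  -- the powers of the linear part of `g`
  have hpw : ∀ (n : ℕ) (v : E), ‖((L₂ * L₁ ^ a) ^ n) v - (μ ^ n * (β₀ * P v).re) • ι ω‖ ≤
      (|l| ^ n + s ^ n) * C₁ * ‖v‖ := by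
    intro n v
    have h2 : ((L₂ * L₁ ^ a) ^ n) v - (μ ^ n * (β₀ * P v).re) • ι ω =
        (l ^ n) • ι (P v - ((β₀ * P v).re : ℂ) * ω) + ((L₂ * L₁ ^ a) ^ n) (v - ι (P v)) := by
      have h3 : ((L₂ * L₁ ^ a) ^ n) v = ((L₂ * L₁ ^ a) ^ n) (ι (P v)) +
          ((L₂ * L₁ ^ a) ^ n) (v - ι (P v)) := by
        rw [← map_add, add_sub_cancel]
      rw [h3, (hg n).sec, hT, ← Complex.real_smul, ← Complex.real_smul, map_add, map_smul,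
        map_smul]
      abel
    have h3 : ‖P v - ((β₀ * P v).re : ℂ) * ω‖ ≤ (‖P‖ + ‖β₀‖ * ‖P‖) * ‖v‖ := by
      refine (norm_sub_le _ _).trans ?_
      rw [norm_mul, hω, mul_one, Complex.norm_real, Real.norm_eq_abs, add_mul]
      exact add_le_add (P.le_opNorm v) (hre _ _)
    have h4 : ‖v - ι (P v)‖ ≤ (1 + ‖ι‖ * ‖P‖) * ‖v‖ := by
      refine (norm_sub_le _ _).trans ?_
      rw [add_mul, one_mul, mul_assoc]
      exact add_le_add le_rfl ((ι.le_opNorm _).trans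
        (mul_le_mul_of_nonneg_left (P.le_opNorm v) (norm_nonneg _)))
    have h5 : P (v - ι (P v)) = 0 := by
      rw [map_sub, h.sec, sub_self]
    rw [h2]
    refine (norm_add_le _ _).trans ?_
    have h6 : ‖(l ^ n) • ι (P v - ((β₀ * P v).re : ℂ) * ω)‖ ≤
        |l| ^ n * (‖ι‖ * ((‖P‖ + ‖β₀‖ * ‖P‖) * ‖v‖)) := by
      rw [norm_smul, Real.norm_eq_abs, abs_pow]
      exact mul_le_mul_of_nonneg_left ((ι.le_opNorm _).trans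
        (mul_le_mul_of_nonneg_left h3 (norm_nonneg _))) (pow_nonneg (abs_nonneg _) _)
    have h7 : ‖((L₂ * L₁ ^ a) ^ n) (v - ι (P v))‖ ≤ s ^ n * ((1 + ‖ι‖ * ‖P‖) * ‖v‖) :=
      (hk2 n _ h5).trans (mul_le_mul_of_nonneg_left h4 (pow_nonneg hs0 _))
    have h8 : 0 ≤ |l| ^ n * ((1 + ‖ι‖ * ‖P‖) * ‖v‖) := by positivity
    have h9 : 0 ≤ s ^ n * (‖ι‖ * ((‖P‖ + ‖β₀‖ * ‖P‖) * ‖v‖)) := by positivity
    calc ‖(l ^ n) • ι (P v - ((β₀ * P v).re : ℂ) * ω)‖ +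
          ‖((L₂ * L₁ ^ a) ^ n) (v - ι (P v))‖
        ≤ |l| ^ n * (‖ι‖ * ((‖P‖ + ‖β₀‖ * ‖P‖) * ‖v‖)) +
          s ^ n * ((1 + ‖ι‖ * ‖P‖) * ‖v‖) := add_le_add h6 h7
      _ ≤ |l| ^ n * (‖ι‖ * ((‖P‖ + ‖β₀‖ * ‖P‖) * ‖v‖)) +
          s ^ n * ((1 + ‖ι‖ * ‖P‖) * ‖v‖) + (|l| ^ n * ((1 + ‖ι‖ * ‖P‖) * ‖v‖) +
            s ^ n * (‖ι‖ * ((‖P‖ + ‖β₀‖ * ‖P‖) * ‖v‖))) := le_add_of_nonneg_right
              (add_nonneg h8 h9)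
      _ = (|l| ^ n + s ^ n) * C₁ * ‖v‖ := by
          rw [hC₁]
          ring
  -- the rotation
  have hβn : 0 < ‖β‖ := norm_pos_iff.2 hβ
  have hβ₀n : 0 < ‖β₀‖ := norm_pos_iff.2 hβ₀
  obtain ⟨ε, hε, hε'⟩ : ∃ ε : ℝ, 0 < ε ∧ ‖β‖ * ‖P‖ * ‖ι‖ * ε ≤ η / 2 := by
    have hK : 0 < ‖β‖ * ‖P‖ * ‖ι‖ + 1 := by positivity
    refine ⟨η / 2 / (‖β‖ * ‖P‖ * ‖ι‖ + 1), by positivity, ?_⟩
    rw [← mul_div_assoc, div_le_iff₀ hK]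
    nlinarith
  obtain ⟨d, hd⟩ : ∃ d : ℂ, d = (‖β₀‖ : ℂ) * β / ((‖β‖ : ℂ) * β₀) := ⟨_, rfl⟩
  have hβC : (‖β‖ : ℂ) ≠ 0 := Complex.ofReal_ne_zero.2 hβn.ne'
  have hd1 : ‖d‖ = 1 := by
    rw [hd, norm_div, norm_mul, norm_mul, Complex.norm_real, Complex.norm_real, norm_norm,
      norm_norm, mul_comm ‖β‖ ‖β₀‖]
    exact div_self (mul_pos hβ₀n hβn).ne'
  obtain ⟨k, -, hk⟩ := rot_dense h.irr hd1 hε 0
  obtain ⟨t, ht⟩ : ∃ t : ℝ, t = ‖β₀‖ * ‖α‖ ^ k / ‖β‖ := ⟨_, rfl⟩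
  have ht0 : 0 < t := by
    rw [ht]
    positivity
  have hkt : ‖β₀ * α ^ k - (t : ℂ) * β‖ ≤ ε * (t * ‖β‖) := by
    have h2 : β₀ * α ^ k - (t : ℂ) * β = β₀ * (α ^ k - (‖α‖ : ℂ) ^ k * d) := by
      rw [ht, hd]
      push_cast
      field_simp
    rw [h2, norm_mul]
    calc ‖β₀‖ * ‖α ^ k - (‖α‖ : ℂ) ^ k * d‖ ≤ ‖β₀‖ * (ε * ‖α‖ ^ k) :=
          mul_le_mul_of_nonneg_left hk (norm_nonneg _)
      _ = ε * (t * ‖β‖) := by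
          rw [ht, div_mul_cancel₀ _ hβn.ne']
          ring
  -- the number of iterations
  obtain ⟨n, hn⟩ : ∃ n : ℕ, (|l| ^ n + s ^ n) * (C₁ * ‖L₁ ^ k‖) ≤ μ ^ n * t * (η / 2) := by
    have h2 : Filter.Tendsto (fun n : ℕ => ((|l| / μ) ^ n + (s / μ) ^ n) * (C₁ * ‖L₁ ^ k‖))
        Filter.atTop (nhds ((0 + 0) * (C₁ * ‖L₁ ^ k‖))) :=
      ((tendsto_pow_atTop_nhds_zero_of_lt_one (by positivity) ((div_lt_one hμ0).2 hl)).add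
        (tendsto_pow_atTop_nhds_zero_of_lt_one (by positivity)
          ((div_lt_one hμ0).2 hsμ))).mul_const _
    rw [add_zero, zero_mul] at h2
    have h3 : (0 : ℝ) < t * (η / 2) := by positivity
    obtain ⟨n, hn⟩ := (h2.eventually (gt_mem_nhds h3)).exists
    refine ⟨n, ?_⟩
    have h4 : 0 < μ ^ n := pow_pos hμ0 n
    have h5 := mul_le_mul_of_nonneg_left hn.le h4.le
    rw [div_pow, div_pow] at h5
    calc (|l| ^ n + s ^ n) * (C₁ * ‖L₁ ^ k‖)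
        = μ ^ n * ((|l| ^ n / μ ^ n + s ^ n / μ ^ n) * (C₁ * ‖L₁ ^ k‖)) := by
          field_simp
      _ ≤ _ := h5
      _ = _ := by ring
  refine ⟨(f₂ ∘ f₁^[a])^[n] ∘ f₁^[k], μ ^ n * t, ω,
    ((hg n).comp (h.s1.iter k)).maps, mul_pos (pow_pos hμ0 n) ht0, hω, fun x y => ?_⟩
  have hlin := ((hg n).comp (h.s1.iter k)).lin x y
  have hPv : P ((L₁ ^ k) (x - y)) = α ^ k * P (x - y) := by
    rw [(h.s1.iter k).proj, hrot]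
  have h2 := hpw n ((L₁ ^ k) (x - y))
  have h3 : ‖(L₁ ^ k) (x - y)‖ ≤ ‖L₁ ^ k‖ * ‖x - y‖ := (L₁ ^ k).le_opNorm _
  have h4 : ((f₂ ∘ f₁^[a])^[n] ∘ f₁^[k]) x - ((f₂ ∘ f₁^[a])^[n] ∘ f₁^[k]) y -
      (μ ^ n * t * (β * P (x - y)).re) • ι ω =
      (((L₂ * L₁ ^ a) ^ n) ((L₁ ^ k) (x - y)) -
        (μ ^ n * (β₀ * P ((L₁ ^ k) (x - y))).re) • ι ω) +
      (μ ^ n * ((β₀ * α ^ k - (t : ℂ) * β) * P (x - y)).re) • ι ω := by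
    rw [hlin, hPv]
    have h5 : ((β₀ * α ^ k - (t : ℂ) * β) * P (x - y)).re =
        (β₀ * (α ^ k * P (x - y))).re - t * (β * P (x - y)).re := by
      rw [← Complex.re_ofReal_mul, ← Complex.sub_re]
      congr 1
      ring
    rw [h5]
    change ((L₂ * L₁ ^ a) ^ n) ((L₁ ^ k) (x - y)) - _ = _
    rw [sub_add_eq_add_sub, add_sub_assoc, sub_eq_add_neg]
    congr 1
    rw [← neg_smul, ← sub_smul]
    congr 1
    ring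
  rw [h4]
  refine (norm_add_le _ _).trans ?_
  have h5 : ‖(μ ^ n * ((β₀ * α ^ k - (t : ℂ) * β) * P (x - y)).re) • ι ω‖ ≤
      μ ^ n * t * (η / 2) * ‖x - y‖ := by
    rw [norm_smul, Real.norm_eq_abs, abs_mul, abs_of_pos (pow_pos hμ0 n)]
    calc μ ^ n * |((β₀ * α ^ k - (t : ℂ) * β) * P (x - y)).re| * ‖ι ω‖
        ≤ μ ^ n * (ε * (t * ‖β‖) * ‖P‖ * ‖x - y‖) * ‖ι‖ := by
          refine mul_le_mul (mul_le_mul_of_nonneg_left ?_ (pow_pos hμ0 n).le) hιω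
            (norm_nonneg _) (by positivity)
          refine (hre _ _).trans ?_
          refine mul_le_mul_of_nonneg_right ?_ (norm_nonneg _)
          exact mul_le_mul_of_nonneg_right hkt (norm_nonneg _)
      _ = (μ ^ n * t * ‖x - y‖) * (‖β‖ * ‖P‖ * ‖ι‖ * ε) := by ring
      _ ≤ (μ ^ n * t * ‖x - y‖) * (η / 2) :=
          mul_le_mul_of_nonneg_left hε' (by positivity)
      _ = μ ^ n * t * (η / 2) * ‖x - y‖ := by ring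
  have h6 : ‖((L₂ * L₁ ^ a) ^ n) ((L₁ ^ k) (x - y)) -
      (μ ^ n * (β₀ * P ((L₁ ^ k) (x - y))).re) • ι ω‖ ≤ μ ^ n * t * (η / 2) * ‖x - y‖ := by
    refine h2.trans ?_
    calc (|l| ^ n + s ^ n) * C₁ * ‖(L₁ ^ k) (x - y)‖
        ≤ (|l| ^ n + s ^ n) * C₁ * (‖L₁ ^ k‖ * ‖x - y‖) :=
          mul_le_mul_of_nonneg_left h3 (by positivity)
      _ = (|l| ^ n + s ^ n) * (C₁ * ‖L₁ ^ k‖) * ‖x - y‖ := by ring
      _ ≤ μ ^ n * t * (η / 2) * ‖x - y‖ := mul_le_mul_of_nonneg_right hn (norm_nonneg _)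
  refine (add_le_add h6 h5).trans_eq ?_
  ring

end Pool.Agent.MP_b039ef_an.SG
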