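import Pool.Agent.Lib.MP_b039ef_an_SG.Defs

/-!
# MP_b039ef_an, project SG: powers of a plane linear map with two real eigenvalues
-/

set_option autoImplicit false

noncomputable section

namespace Pool.Agent.MP_b039ef_an.SG

open Complex

/-- A real linear map `U z + W conj z` with `‖U‖ = ‖W‖ ≠ 0` has rank one.

PROOF.  Let `ω ^ 2 = U * W / ‖U‖ ^ 2` (`IsAlgClosed.exists_pow_nat_eq` or `Complex.cpow`), so
`‖ω‖ = 1`, and `β = 2 * U * conj ω`.  Then `Re (β z) ω = (β z + conj (β z)) ω / 2`,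
`β ω / 2 = U`, `conj β * ω / 2 = conj U * ω ^ 2 = W`. -/
theorem rank_one {U W : ℂ} (h : ‖U‖ = ‖W‖) (h0 : U ≠ 0) :
    ∃ β ω : ℂ, β ≠ 0 ∧ ‖ω‖ = 1 ∧
      ∀ z : ℂ, U * z + W * (starRingEnd ℂ) z = ((β * z).re : ℂ) * ω := by
  have hn : 0 < ‖U‖ := norm_pos_iff.2 h0
  obtain ⟨ω, hω⟩ := IsAlgClosed.exists_pow_nat_eq (U * W / ((‖U‖ ^ 2 : ℝ) : ℂ)) (n := 2)
    (by norm_num)
  have hUU : (starRingEnd ℂ) U * U = ((‖U‖ ^ 2 : ℝ) : ℂ) := by
    rw [mul_comm, Complex.mul_conj, Complex.normSq_eq_norm_sq]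
  have hn2 : ((‖U‖ ^ 2 : ℝ) : ℂ) ≠ 0 := by
    rw [Ne, Complex.ofReal_eq_zero]
    positivity
  have hω1 : ‖ω‖ = 1 := by
    have h1 : ‖ω‖ ^ 2 = 1 := by
      rw [← norm_pow, hω, norm_div, norm_mul, ← h, Complex.norm_real,
        Real.norm_of_nonneg (by positivity)]
      field_simp
    have h2 : ‖ω‖ ^ 2 - 1 = (‖ω‖ - 1) * (‖ω‖ + 1) := by ring
    have h3 : (‖ω‖ - 1) * (‖ω‖ + 1) = 0 := by rw [← h2, h1, sub_self]
    rcases mul_eq_zero.1 h3 with h4 | h4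
    · linarith
    · have := norm_nonneg ω
      linarith
  have hωω : (starRingEnd ℂ) ω * ω = 1 := by
    rw [mul_comm, Complex.mul_conj, Complex.normSq_eq_norm_sq, hω1]
    norm_num
  have hW : (starRingEnd ℂ) U * ω ^ 2 = W := by
    rw [hω, mul_div_assoc', ← mul_assoc, hUU]
    field_simp
  refine ⟨2 * U * (starRingEnd ℂ) ω, ω, ?_, hω1, fun z => ?_⟩
  · refine mul_ne_zero (mul_ne_zero two_ne_zero h0) ?_
    intro h1
    rw [h1, zero_mul] at hωω
    exact zero_ne_one hωω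
  · rw [Complex.re_eq_add_conj]
    simp only [map_mul, Complex.conj_conj, map_ofNat]
    linear_combination (-(U * z)) * hωω - (starRingEnd ℂ) z * hW

/-- The powers of `z ↦ p z + q conj z` for `0 < Re p`, `|Im p| < ‖q‖`.

PROOF.  `s = √(‖q‖² - (Im p)²) > 0`, `μ = Re p + s`, `l = Re p - s`; `|l| < μ`.
`T = rl p q` satisfies `(T - μ) (T - l) = 0` (trace `2 Re p`, determinant `‖p‖² - ‖q‖²`; compute
directly with `conj`).  `Π = (T - l) / (2 s)` is `U z + W conj z` with `U = (i Im p + s) / (2 s)`,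
`W = q / (2 s)`, `‖U‖ = ‖W‖`, so by `rank_one` `Π z = Re (β z) ω`.
`T Π = μ Π` and `T (1 - Π) = l (1 - Π)`, `Π` is a projection; induction on `n`. -/
theorem hyp_pow {p q : ℂ} (h0 : 0 < p.re) (h1 : |p.im| < ‖q‖) :
    ∃ (μ l : ℝ) (β ω : ℂ), μ = p.re + √(‖q‖ ^ 2 - p.im ^ 2) ∧ |l| < μ ∧ β ≠ 0 ∧ ‖ω‖ = 1 ∧
      ∀ (n : ℕ) (z : ℂ), ((rl p q) ^ n) z =
        ((μ ^ n * (β * z).re : ℝ) : ℂ) * ω + ((l ^ n : ℝ) : ℂ) * (z - ((β * z).re : ℂ) * ω) := by
  have hs0 : 0 < ‖q‖ ^ 2 - p.im ^ 2 := by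
    have h2 := abs_nonneg p.im
    have h3 : |p.im| ^ 2 = p.im ^ 2 := sq_abs _
    nlinarith
  obtain ⟨s, hs⟩ : ∃ s : ℝ, s = √(‖q‖ ^ 2 - p.im ^ 2) := ⟨_, rfl⟩
  have hsp : 0 < s := by
    rw [hs]
    exact Real.sqrt_pos.2 hs0
  have hs2 : s ^ 2 = ‖q‖ ^ 2 - p.im ^ 2 := by
    rw [hs]
    exact Real.sq_sqrt hs0.le
  have hsc : (s : ℂ) ≠ 0 := by
    rw [Ne, Complex.ofReal_eq_zero]
    exact hsp.ne'
  obtain ⟨U, hU⟩ : ∃ U : ℂ, U = (I * p.im + s) / (2 * s) := ⟨_, rfl⟩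
  obtain ⟨W, hW⟩ : ∃ W : ℂ, W = q / (2 * s) := ⟨_, rfl⟩
  have hUs : 2 * s * U = I * p.im + s := by
    rw [hU]
    field_simp
  have hWs : 2 * s * W = q := by
    rw [hW]
    field_simp
  have hUc : 2 * s * (starRingEnd ℂ) U = -(I * p.im) + s := by
    have h2 := congrArg (starRingEnd ℂ) hUs
    simp only [map_mul, map_add, map_ofNat, Complex.conj_ofReal, Complex.conj_I] at h2
    rw [h2]
    ring
  have hWc : 2 * s * (starRingEnd ℂ) W = (starRingEnd ℂ) q := by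
    have h2 := congrArg (starRingEnd ℂ) hWs
    simp only [map_mul, map_ofNat, Complex.conj_ofReal] at h2
    exact h2
  have hU1 : U + (starRingEnd ℂ) U = 1 := by
    have h2 : (2 * s : ℂ) * (U + (starRingEnd ℂ) U) = 2 * s * 1 := by
      linear_combination hUs + hUc
    exact mul_left_cancel₀ (mul_ne_zero two_ne_zero hsc) h2
  have hqq : q * (starRingEnd ℂ) q = (s : ℂ) ^ 2 + (p.im : ℂ) ^ 2 := by
    rw [Complex.mul_conj, Complex.normSq_eq_norm_sq]
    have h2 : ‖q‖ ^ 2 = s ^ 2 + p.im ^ 2 := by linarith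
    rw [h2]
    push_cast
    ring
  have hUW : W * (starRingEnd ℂ) W = U * (starRingEnd ℂ) U := by
    have h2 : (2 * s : ℂ) * (2 * s) * (W * (starRingEnd ℂ) W) =
        2 * s * (2 * s) * (U * (starRingEnd ℂ) U) := by
      have h3 : (2 * s : ℂ) * (2 * s) * (W * (starRingEnd ℂ) W) =
          (2 * s * W) * (2 * s * (starRingEnd ℂ) W) := by ring
      have h4 : (2 * s : ℂ) * (2 * s) * (U * (starRingEnd ℂ) U) =
          (2 * s * U) * (2 * s * (starRingEnd ℂ) U) := by ring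
      rw [h3, h4, hWs, hWc, hUs, hUc, hqq]
      linear_combination ((p.im : ℂ) ^ 2) * Complex.I_sq
    exact mul_left_cancel₀ (mul_ne_zero (mul_ne_zero two_ne_zero hsc)
      (mul_ne_zero two_ne_zero hsc)) h2
  have hnorm : ‖U‖ = ‖W‖ := by
    rw [Complex.mul_conj, Complex.mul_conj, Complex.normSq_eq_norm_sq,
      Complex.normSq_eq_norm_sq] at hUW
    have h2 : ‖W‖ ^ 2 = ‖U‖ ^ 2 := by exact_mod_cast hUW
    exact ((sq_eq_sq₀ (norm_nonneg _) (norm_nonneg _)).1 h2).symm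
  have hU0 : U ≠ 0 := by
    intro h2
    rw [h2, map_zero, add_zero] at hU1
    exact zero_ne_one hU1
  obtain ⟨β, ω, hβ, hω, hR⟩ := rank_one hnorm hU0
  refine ⟨p.re + s, p.re - s, β, ω, by rw [hs], ?_, hβ, hω, ?_⟩
  · rw [abs_lt]
    constructor <;> linarith
  have hp : p = p.re + p.im * I := (Complex.re_add_im p).symm
  have hT : ∀ z : ℂ, p * z + q * (starRingEnd ℂ) z =
      2 * s * (U * z + W * (starRingEnd ℂ) z) + (p.re - s) * z := by
    intro z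
    linear_combination z * hp - z * hUs - (starRingEnd ℂ) z * hWs
  have hPP : ∀ z : ℂ, U * (U * z + W * (starRingEnd ℂ) z) +
      W * (starRingEnd ℂ) (U * z + W * (starRingEnd ℂ) z) = U * z + W * (starRingEnd ℂ) z := by
    intro z
    simp only [map_add, map_mul, Complex.conj_conj]
    linear_combination z * hUW + (U * z + W * (starRingEnd ℂ) z) * hU1
  intro n
  induction n with
  | zero =>
    intro z
    rw [pow_zero, pow_zero, pow_zero]
    simp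
  | succ n ih =>
    intro z
    have h2 : ((rl p q) ^ (n + 1)) z = (rl p q) (((rl p q) ^ n) z) := by
      rw [pow_succ']
      rfl
    obtain ⟨w, hw⟩ : ∃ w : ℂ, w = U * z + W * (starRingEnd ℂ) z := ⟨_, rfl⟩
    have e1 : p * w + q * (starRingEnd ℂ) w = (p.re + s) * w := by
      rw [hT w, hw, hPP z]
      ring
    have e2 : p * z + q * (starRingEnd ℂ) z = 2 * s * w + (p.re - s) * z := by
      rw [hT z, hw]
    have hw' : ((β * z).re : ℂ) * ω = w := by rw [hw, hR z]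
    have e3 : ∀ m : ℕ, (((p.re + s) ^ m * (β * z).re : ℝ) : ℂ) * ω +
        (((p.re - s) ^ m : ℝ) : ℂ) * (z - ((β * z).re : ℂ) * ω) =
        ((p.re : ℂ) + s) ^ m * w + ((p.re : ℂ) - s) ^ m * (z - w) := by
      intro m
      rw [hw']
      push_cast
      linear_combination ((p.re : ℂ) + s) ^ m * hw'
    rw [h2, ih, rl_apply, e3, e3]
    simp only [map_add, map_mul, map_sub, map_pow, Complex.conj_ofReal]
    linear_combination ((p.re : ℂ) + s) ^ n * e1 + ((p.re : ℂ) - s) ^ n * (e2 - e1)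

end Pool.Agent.MP_b039ef_an.SG
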