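import Mathlib

/-!
# MP_b039ef_an, project SG: powers of a complex number in all directions
-/

set_option autoImplicit false

namespace Pool.Agent.MP_b039ef_an.SG

/-- Let no positive power of `α` be real. Then the directions of the powers are dense.

PROOF.  `α ≠ 0`; `w = α / ‖α‖` has norm one and `w ^ n ≠ 1` for `n ≥ 1`.  So it is enough to find
`n ≥ N` with `‖w ^ n - d‖ ≤ ε`.  (a) With Mathlib: `w` as an element of the circle
(`AddCircle.toCircle`, `Circle`, or the argument) has infinite order, the integral multiples are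
dense (`AddCircle.denseRange_zsmul_iff`), so `‖w ^ k - d‖ ≤ ε / 2` for some integer `k`; by
compactness (two elements of a sequence of powers are close together) there is `l ≥ 1` with
`‖w ^ l - 1‖` as small as we like, and then also `w ^ (l j)` is close to one for `j ≥ 1` fixed, so
there is such an `l` with `l + k ≥ N`; take `n = l + k`.  (b) Or directly: let `v = w ^ l`,
`0 < ‖v - 1‖ ≤ ε'`, `v = exp (i φ)`, `0 < |φ| ≤ 2 ε'`, `d w ^ (-N) = exp (i ψ)` and take the
multiple of `φ` nearest to `ψ + 2 π j` for a large integer `j` of the sign of `φ`. -/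
theorem rot_dense {α : ℂ} (h : ∀ n : ℕ, 0 < n → (α ^ n).im ≠ 0) {d : ℂ} (hd : ‖d‖ = 1) {ε : ℝ}
    (hε : 0 < ε) (N : ℕ) :
    ∃ n : ℕ, N ≤ n ∧ ‖α ^ n - (‖α‖ : ℂ) ^ n * d‖ ≤ ε * ‖α‖ ^ n := by
  have hα : α ≠ 0 := by
    rintro rfl
    exact h 1 one_pos (by simp)
  have hn : ‖α‖ ≠ 0 := norm_ne_zero_iff.2 hα
  have hnC : (‖α‖ : ℂ) ≠ 0 := Complex.ofReal_ne_zero.2 hn
  have hw : ‖α / (‖α‖ : ℂ)‖ = 1 := by
    rw [norm_div, Complex.norm_real, norm_norm, div_self hn]
  -- the two points of the circle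
  obtain ⟨w, hw1⟩ : ∃ w : Circle, (w : ℂ) = α / (‖α‖ : ℂ) :=
    ⟨⟨_, mem_sphere_zero_iff_norm.2 hw⟩, rfl⟩
  obtain ⟨d', hd1⟩ : ∃ w : Circle, (w : ℂ) = d := ⟨⟨_, mem_sphere_zero_iff_norm.2 hd⟩, rfl⟩
  obtain ⟨a, ha⟩ := (AddCircle.homeomorphCircle (T := 1) one_ne_zero).surjective w
  obtain ⟨z, hz⟩ := (AddCircle.homeomorphCircle (T := 1) one_ne_zero).surjective d'
  rw [AddCircle.homeomorphCircle_apply] at ha hz
  haveI : Fact ((0 : ℝ) < 1) := ⟨one_pos⟩
  have hord : addOrderOf a = 0 := by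
    rw [addOrderOf_eq_zero_iff']
    intro n hn0 hna
    have h1 : w ^ n = 1 := by
      rw [← ha, ← AddCircle.toCircle_nsmul, hna, AddCircle.toCircle_zero]
    have h2 : (α / (‖α‖ : ℂ)) ^ n = 1 := by
      rw [← hw1, ← Circle.coe_pow, h1, Circle.coe_one]
    rw [div_pow, div_eq_one_iff_eq (pow_ne_zero _ hnC)] at h2
    refine h n hn0 ?_
    rw [h2, ← Complex.ofReal_pow, Complex.ofReal_im]
  have hdense := AddCircle.denseRange_zsmul_iff.2 hord
  have hcl : MapClusterPt z Filter.atTop (fun n : ℕ => n • a) :=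
    ((mapClusterPt_atTop_nsmul_tfae z a).out 0 3).2 (hdense.closure_range ▸ Set.mem_univ z)
  have hcont : Continuous fun x : AddCircle (1 : ℝ) => ((AddCircle.toCircle x : Circle) : ℂ) :=
    continuous_subtype_val.comp AddCircle.continuous_toCircle
  have hcl2 := hcl.continuousAt_comp hcont.continuousAt
  have hev : ∀ᶠ y : ℂ in nhds ((AddCircle.toCircle z : Circle) : ℂ), ‖y - d‖ < ε := by
    rw [hz, hd1]
    have h1 := Metric.ball_mem_nhds d hε
    filter_upwards [h1] with y hy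
    rwa [← dist_eq_norm]
  have hfr := hcl2.frequently hev
  obtain ⟨n, hnN, hn2⟩ := Filter.frequently_atTop.1 hfr N
  refine ⟨n, hnN, ?_⟩
  have h3 : (((AddCircle.toCircle (n • a) : Circle) : ℂ)) = (α / (‖α‖ : ℂ)) ^ n := by
    rw [AddCircle.toCircle_nsmul, ha, Circle.coe_pow, hw1]
  have h4 : ‖(α / (‖α‖ : ℂ)) ^ n - d‖ < ε := by
    rw [← h3]
    exact hn2
  have h5 : α ^ n - (‖α‖ : ℂ) ^ n * d = (‖α‖ : ℂ) ^ n * ((α / (‖α‖ : ℂ)) ^ n - d) := by
    rw [div_pow]
    field_simp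
  rw [h5, norm_mul, norm_pow, Complex.norm_real, norm_norm, mul_comm]
  exact mul_le_mul_of_nonneg_right h4.le (by positivity)

end Pool.Agent.MP_b039ef_an.SG
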