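import Pool.Agent.Lib.MP_b039ef_an_SG.Rot

/-!
# MP_b039ef_an, project SG: the choice of the new direction
-/

set_option autoImplicit false

namespace Pool.Agent.MP_b039ef_an.SG

open Complex Filter Topology

/-- The choice of the new direction `γ` (the constant `C` depends on `α`, `B`, `b` only).

PROOF.  `u = B⁻¹ b ≠ 0` (`B` is injective, so bijective: `LinearMap.injective_iff_surjective`).
`s = 1 / ‖u‖`.  By `rot_dense` (for `d = s u conj ω`, `ε = 1 / (j + 1)`, `N = j`) there are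
`n_j ≥ j` with `‖α ^ n_j ω - r_j s u‖ ≤ r_j / (j + 1)`, `r_j = ‖α‖ ^ n_j → 0` (`0 < r_j`).  Put
`ζ_j = B (α ^ n_j ω)`, `z_j = b + B (α ^ n_j v)`, `y_j = (α - 1) z_j - κ ζ_j` and
`γ_j = σ i conj y_j`, `σ = 1` if `0 < α.im` and `σ = -1` otherwise.
Limits: `ζ_j / r_j → s b`, `ζ_j → 0`, `z_j → b`, `y_j → (α - 1) b`,
`γ_j → γ = σ i conj ((α - 1) b)`,
`Re (γ_j ζ_j) / r_j → Re (γ s b) = s ‖b‖² |α.im| =: Λ > 0`,
`Re (γ_j (α - 1) ζ_j) / r_j → s Re (σ i ‖(α - 1) b‖²) = 0`.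
Exactly: `Re (γ_j y_j) = 0`, that is `Re (γ_j (α - 1) z_j) = κ Re (γ_j ζ_j)`.  Take `j` large and
`C = 2 (‖(α - 1) b‖ + 1) / Λ`. -/
theorem step_alg {α : ℂ} (h : ∀ n : ℕ, 0 < n → (α ^ n).im ≠ 0) (hlt : ‖α‖ < 1)
    {B : ℂ →L[ℝ] ℂ} (hB : Function.Injective B) {b : ℂ} (hb : b ≠ 0) :
    ∃ C : ℝ, 0 < C ∧ ∀ (ε κ : ℝ) (v ω : ℂ), 0 < ε → ‖ω‖ = 1 → ∃ (n : ℕ) (γ : ℂ),
      0 < (γ * B (α ^ n * ω)).re ∧
      (γ * ((α - 1) * (b + B (α ^ n * v)))).re = κ * (γ * B (α ^ n * ω)).re ∧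
      |(γ * ((α - 1) * B (α ^ n * ω))).re| ≤ ε * (γ * B (α ^ n * ω)).re ∧
      ‖γ‖ * ‖α‖ ^ n ≤ C * (γ * B (α ^ n * ω)).re := by
  have him : α.im ≠ 0 := by simpa using h 1 one_pos
  have hα0 : α ≠ 0 := by
    intro h0
    apply him
    rw [h0]
    simp
  have hαp : 0 < ‖α‖ := norm_pos_iff.mpr hα0
  have hsur : Function.Surjective B := by
    have h1 : Function.Injective (B : ℂ →ₗ[ℝ] ℂ) := hB
    exact (LinearMap.injective_iff_surjective (f := (B : ℂ →ₗ[ℝ] ℂ))).mp h1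
  obtain ⟨u, hu⟩ := hsur b
  have hu0 : u ≠ 0 := by
    intro h0
    apply hb
    rw [← hu, h0, map_zero]
  have hup : 0 < ‖u‖ := norm_pos_iff.mpr hu0
  obtain ⟨σ, hσ1, hσ2⟩ : ∃ σ : ℝ, |σ| = 1 ∧ 0 < σ * α.im := by
    rcases lt_or_gt_of_ne him with h1 | h1
    · exact ⟨-1, by simp, by linarith⟩
    · exact ⟨1, by simp, by linarith⟩
  set s : ℝ := ‖u‖⁻¹ with hs
  have hsp : 0 < s := inv_pos.mpr hup
  set Λ : ℝ := s * (‖b‖ ^ 2 * (σ * α.im)) with hΛ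
  have hbp : 0 < ‖b‖ := norm_pos_iff.mpr hb
  have hΛp : 0 < Λ := by positivity
  set γ0 : ℂ := (σ : ℂ) * (I * (starRingEnd ℂ) ((α - 1) * b)) with hγ0
  refine ⟨2 * (‖γ0‖ + 1) / Λ, by positivity, ?_⟩
  intro ε κ v ω hε hω
  have hd : ‖(s : ℂ) * u * (starRingEnd ℂ) ω‖ = 1 := by
    rw [norm_mul, norm_mul, RCLike.norm_conj, hω, norm_real, Real.norm_of_nonneg hsp.le, hs,
      mul_one, inv_mul_cancel₀ hup.ne']
  have hωω : (starRingEnd ℂ) ω * ω = 1 := by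
    rw [mul_comm, mul_conj, normSq_eq_norm_sq, hω]
    simp
  have hex : ∀ j : ℕ, ∃ n : ℕ, j ≤ n ∧
      ‖α ^ n - (‖α‖ : ℂ) ^ n * ((s : ℂ) * u * (starRingEnd ℂ) ω)‖ ≤
        (1 / ((j : ℝ) + 1)) * ‖α‖ ^ n := fun j => rot_dense h hd (by positivity) j
  choose n hn1 hn2 using hex
  have hrp : ∀ j, 0 < ‖α‖ ^ n j := fun j => pow_pos hαp _
  have hr0 : Tendsto (fun j => ‖α‖ ^ n j) atTop (𝓝 0) :=
    (tendsto_pow_atTop_nhds_zero_of_lt_one hαp.le hlt).comp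
      (tendsto_atTop_mono hn1 tendsto_id)
  have hαn : Tendsto (fun j => α ^ n j) atTop (𝓝 0) :=
    (tendsto_pow_atTop_nhds_zero_of_norm_lt_one hlt).comp (tendsto_atTop_mono hn1 tendsto_id)
  -- the normalised directions
  set q : ℕ → ℂ := fun j => ((‖α‖ ^ n j : ℝ) : ℂ)⁻¹ * (α ^ n j * ω) with hq
  have hqr : ∀ j, α ^ n j * ω = (‖α‖ ^ n j : ℝ) • q j := by
    intro j
    have h1 : ((‖α‖ ^ n j : ℝ) : ℂ) ≠ 0 := by
      exact_mod_cast (hrp j).ne'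
    rw [real_smul, hq]
    simp only
    rw [← mul_assoc, mul_inv_cancel₀ h1, one_mul]
  have hqe : ∀ j, ‖q j - (s : ℂ) * u‖ ≤ 1 / ((j : ℝ) + 1) := by
    intro j
    have h1 : ((‖α‖ ^ n j : ℝ) : ℂ) ≠ 0 := by
      exact_mod_cast (hrp j).ne'
    have h2 : q j - (s : ℂ) * u = ((‖α‖ ^ n j : ℝ) : ℂ)⁻¹ *
        ((α ^ n j - (‖α‖ : ℂ) ^ n j * ((s : ℂ) * u * (starRingEnd ℂ) ω)) * ω) := by
      have h3 : (α ^ n j - (‖α‖ : ℂ) ^ n j * ((s : ℂ) * u * (starRingEnd ℂ) ω)) * ω =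
          α ^ n j * ω - (‖α‖ : ℂ) ^ n j * ((s : ℂ) * u * ((starRingEnd ℂ) ω * ω)) := by ring
      rw [h3, hωω, mul_one, mul_sub, hq]
      simp only
      congr 1
      rw [← ofReal_pow, ← mul_assoc, inv_mul_cancel₀ h1, one_mul]
    rw [h2, norm_mul, norm_mul, hω, mul_one, norm_inv, norm_real,
      Real.norm_of_nonneg (hrp j).le]
    rw [inv_mul_le_iff₀ (hrp j)]
    exact (hn2 j).trans_eq (mul_comm _ _)
  have hql : Tendsto q atTop (𝓝 ((s : ℂ) * u)) := by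
    rw [tendsto_iff_norm_sub_tendsto_zero]
    exact squeeze_zero (fun j => norm_nonneg _) hqe tendsto_one_div_add_atTop_nhds_zero_nat
  have hBq : Tendsto (fun j => B (q j)) atTop (𝓝 ((s : ℂ) * b)) := by
    have h1 := (B.continuous.tendsto ((s : ℂ) * u)).comp hql
    have h2 : B ((s : ℂ) * u) = (s : ℂ) * b := by
      rw [← real_smul, map_smul, hu, real_smul]
    rw [h2] at h1
    exact h1
  have hζ : Tendsto (fun j => B (α ^ n j * ω)) atTop (𝓝 0) := by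
    have h1 : Tendsto (fun j => α ^ n j * ω) atTop (𝓝 0) := by
      simpa using hαn.mul_const ω
    have h2 := (B.continuous.tendsto 0).comp h1
    rw [map_zero] at h2
    exact h2
  have hz : Tendsto (fun j => b + B (α ^ n j * v)) atTop (𝓝 b) := by
    have h1 : Tendsto (fun j => α ^ n j * v) atTop (𝓝 0) := by
      simpa using hαn.mul_const v
    have h2 := (B.continuous.tendsto 0).comp h1
    rw [map_zero] at h2
    simpa using h2.const_add b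
  set y : ℕ → ℂ := fun j => (α - 1) * (b + B (α ^ n j * v)) - (κ : ℂ) * B (α ^ n j * ω) with hy
  have hyl : Tendsto y atTop (𝓝 ((α - 1) * b)) := by
    have h1 := (hz.const_mul (α - 1)).sub (hζ.const_mul (κ : ℂ))
    simpa using h1
  set γ : ℕ → ℂ := fun j => (σ : ℂ) * (I * (starRingEnd ℂ) (y j)) with hγ
  have hγl : Tendsto γ atTop (𝓝 γ0) := by
    have h1 := (continuous_conj.tendsto ((α - 1) * b)).comp hyl
    exact (h1.const_mul I).const_mul (σ : ℂ)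
  -- limits of the products
  have hL1 : Tendsto (fun j => (γ j * B (q j)).re) atTop (𝓝 Λ) := by
    have h1 := (continuous_re.tendsto _).comp (hγl.mul hBq)
    have h2 : (γ0 * ((s : ℂ) * b)).re = Λ := by
      have h3 : γ0 * ((s : ℂ) * b) =
          ((σ * s * ‖b‖ ^ 2 : ℝ) : ℂ) * (I * (starRingEnd ℂ) (α - 1)) := by
        rw [hγ0, map_mul]
        have h4 : (starRingEnd ℂ) b * b = ((‖b‖ ^ 2 : ℝ) : ℂ) := by
          rw [mul_comm, mul_conj, normSq_eq_norm_sq]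
        calc (σ : ℂ) * (I * ((starRingEnd ℂ) (α - 1) * (starRingEnd ℂ) b)) * ((s : ℂ) * b)
            = (σ : ℂ) * s * ((starRingEnd ℂ) b * b) * (I * (starRingEnd ℂ) (α - 1)) := by ring
          _ = _ := by
            rw [h4]
            push_cast
            ring
      rw [h3, re_ofReal_mul, hΛ]
      have h5 : (I * (starRingEnd ℂ) (α - 1)).re = α.im := by
        simp
      rw [h5]
      ring
    rw [h2] at h1
    exact h1
  have hL2 : Tendsto (fun j => (γ j * ((α - 1) * B (q j))).re) atTop (𝓝 0) := by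
    have h1 := (continuous_re.tendsto _).comp (hγl.mul (hBq.const_mul (α - 1)))
    have h2 : (γ0 * ((α - 1) * ((s : ℂ) * b))).re = 0 := by
      have h3 : γ0 * ((α - 1) * ((s : ℂ) * b)) =
          ((σ * s * ‖(α - 1) * b‖ ^ 2 : ℝ) : ℂ) * I := by
        rw [hγ0]
        have h4 : (starRingEnd ℂ) ((α - 1) * b) * ((α - 1) * b) =
            ((‖(α - 1) * b‖ ^ 2 : ℝ) : ℂ) := by
          rw [mul_comm, mul_conj, normSq_eq_norm_sq]
        calc (σ : ℂ) * (I * (starRingEnd ℂ) ((α - 1) * b)) * ((α - 1) * ((s : ℂ) * b))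
            = (σ : ℂ) * s * ((starRingEnd ℂ) ((α - 1) * b) * ((α - 1) * b)) * I := by ring
          _ = _ := by
            rw [h4]
            push_cast
            ring
      rw [h3, re_ofReal_mul, I_re, mul_zero]
    rw [h2] at h1
    exact h1
  have hL3 : Tendsto (fun j => ‖γ j‖) atTop (𝓝 ‖γ0‖) := hγl.norm
  have hE1 : ∀ᶠ j in atTop, Λ / 2 < (γ j * B (q j)).re :=
    hL1.eventually (lt_mem_nhds (by linarith))
  have hE2 : ∀ᶠ j in atTop, |(γ j * ((α - 1) * B (q j))).re| < ε * (Λ / 2) := by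
    have h1 := hL2.abs
    rw [abs_zero] at h1
    exact h1.eventually (gt_mem_nhds (by positivity))
  have hE3 : ∀ᶠ j in atTop, ‖γ j‖ < ‖γ0‖ + 1 :=
    hL3.eventually (gt_mem_nhds (by linarith))
  obtain ⟨j, hj1, hj2, hj3⟩ := (hE1.and (hE2.and hE3)).exists
  have hBr : B (α ^ n j * ω) = ((‖α‖ ^ n j : ℝ) : ℂ) * B (q j) := by
    rw [hqr j, map_smul, real_smul]
  have hR1 : (γ j * B (α ^ n j * ω)).re = ‖α‖ ^ n j * (γ j * B (q j)).re := by
    rw [hBr, mul_left_comm, re_ofReal_mul]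
  have hR2 : (γ j * ((α - 1) * B (α ^ n j * ω))).re =
      ‖α‖ ^ n j * (γ j * ((α - 1) * B (q j))).re := by
    rw [hBr]
    have h1 : γ j * ((α - 1) * (((‖α‖ ^ n j : ℝ) : ℂ) * B (q j))) =
        ((‖α‖ ^ n j : ℝ) : ℂ) * (γ j * ((α - 1) * B (q j))) := by ring
    rw [h1, re_ofReal_mul]
  have hy0 : (γ j * y j).re = 0 := by
    have h1 : γ j * y j = ((σ * ‖y j‖ ^ 2 : ℝ) : ℂ) * I := by
      rw [hγ]
      simp only
      have h4 : (starRingEnd ℂ) (y j) * (y j) = ((‖y j‖ ^ 2 : ℝ) : ℂ) := by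
        rw [mul_comm, mul_conj, normSq_eq_norm_sq]
      calc (σ : ℂ) * (I * (starRingEnd ℂ) (y j)) * y j
          = (σ : ℂ) * ((starRingEnd ℂ) (y j) * (y j)) * I := by ring
        _ = _ := by
          rw [h4]
          push_cast
          ring
    rw [h1, re_ofReal_mul, I_re, mul_zero]
  have hrj := hrp j
  refine ⟨n j, γ j, ?_, ?_, ?_, ?_⟩
  · rw [hR1]
    exact mul_pos hrj (by linarith)
  · have h1 : γ j * y j = γ j * ((α - 1) * (b + B (α ^ n j * v))) -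
        (κ : ℂ) * (γ j * B (α ^ n j * ω)) := by
      rw [hy]
      ring
    rw [h1, sub_re, re_ofReal_mul] at hy0
    linarith
  · rw [hR1, hR2, abs_mul, abs_of_pos hrj]
    have h1 : ε * (Λ / 2) ≤ ε * (γ j * B (q j)).re := mul_le_mul_of_nonneg_left hj1.le hε.le
    calc ‖α‖ ^ n j * |(γ j * ((α - 1) * B (q j))).re|
        ≤ ‖α‖ ^ n j * (ε * (γ j * B (q j)).re) :=
          mul_le_mul_of_nonneg_left (by linarith) hrj.le
      _ = ε * (‖α‖ ^ n j * (γ j * B (q j)).re) := by ring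
  · rw [hR1]
    have h1 : ‖γ j‖ ≤ 2 * (‖γ0‖ + 1) / Λ * (γ j * B (q j)).re := by
      calc ‖γ j‖ ≤ ‖γ0‖ + 1 := hj3.le
        _ = 2 * (‖γ0‖ + 1) / Λ * (Λ / 2) := by
          field_simp
        _ ≤ 2 * (‖γ0‖ + 1) / Λ * (γ j * B (q j)).re :=
          mul_le_mul_of_nonneg_left hj1.le (by positivity)
    calc ‖γ j‖ * ‖α‖ ^ n j ≤ 2 * (‖γ0‖ + 1) / Λ * (γ j * B (q j)).re * ‖α‖ ^ n j :=
          mul_le_mul_of_nonneg_right h1 hrj.le
      _ = 2 * (‖γ0‖ + 1) / Λ * (‖α‖ ^ n j * (γ j * B (q j)).re) := by ring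

end Pool.Agent.MP_b039ef_an.SG
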