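import Pool.Agent.Lib.MP_b039ef_an_SG.Ndl
import Pool.Agent.Lib.MP_b039ef_an_SG.StA

/-!
# MP_b039ef_an, project SG: doubling the progression
-/

set_option autoImplicit false

noncomputable section

namespace Pool.Agent.MP_b039ef_an.SG

open Complex

variable {E : Type} [NormedAddCommGroup E] [NormedSpace ℝ E] {P : E →L[ℝ] ℂ} {ι : ℂ →L[ℝ] E}
  {F : Set E} {f₁ f₂ f₃ : E → E} {L₁ L₂ L₃ : E →L[ℝ] E} {B₃ : ℂ →L[ℝ] ℂ} {α p q b z₁ : ℂ} {c : ℝ}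

/-- Doubling the progression.

PROOF.  Let `D > 0` bound `‖x - y‖` for `x, y ∈ F`, let `γ₀, δ, c₀, x` be the given progression and
`C` the constant of `step_alg` for `α`, `B₃`, `b`.  Choose `ε₁ > 0` with
`‖γ₀‖ ‖P‖ D ε₁ ≤ (ε' - ε) δ / 2`, `η > 0` with `C ‖B₃‖ ‖P‖ η D ≤ (ε' - ε) δ / 2`, and
`f, ρ, ω` by `exists_ndl` for `β = γ₀`.  Let `v = P (f (x 0)) - z₁`,
`κ = M δ ρ`, and `n, γ` from `step_alg`.  `ζ = B₃ (α ^ n ω)`, `z = b + B₃ (α ^ n v)`,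
`lam = Re (γ ζ) > 0`.
Let `y i = f₃ (f₁^[n] (f (x i)))` and `y (M + i) = f₁ (y i)`, `i < M`: they belong to `F`.
`P (f₁^[n] u) - z₁ = α ^ n (P u - z₁)` (induction, `h.fix`).  With
`s_i = Re (γ₀ P (x i - x 0))` and `e_i = P (f (x i) - f (x 0)) - ρ s_i ω`, `‖e_i‖ ≤ ‖P‖ η ρ D`:
`P (y i) - z₁ = z + ρ s_i ζ + B₃ (α ^ n e_i)`.
So `Re (γ P (y i)) = Re (γ z₁) + Re (γ z) + ρ s_i lam + E_i`,
`|E_i| ≤ ‖γ‖ ‖B₃‖ ‖α‖ ^ n ‖P‖ η ρ D ≤ C lam ‖B₃‖ ‖P‖ η ρ D ≤ (ε' - ε) δ ρ lam / 2`.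
With `θ_i = Re (γ₀ P (x i)) - c₀ - i δ`, `|θ_i| ≤ ε δ`: `s_i = i δ + θ_i - θ_0`.  New data:
`δ' = δ ρ lam`, `c' = Re (γ z₁) + Re (γ z) - ρ lam θ_0`:
`|Re (γ P (y i)) - c' - i δ'| ≤ ρ lam ε δ + (ε' - ε) δ' / 2 ≤ ε' δ'`.
`P (y (M + i)) - z₁ = α (P (y i) - z₁)`, so
`Re (γ P (y (M + i))) = Re (γ z₁) + Re (γ α z) + ρ s_i Re (γ α ζ) + Re (γ α B₃ (α ^ n e_i))`, with
`Re (γ α z) = Re (γ z) + κ lam = Re (γ z) + M δ'`,
`Re (γ α ζ) = lam + Re (γ (α - 1) ζ)`, `|ρ s_i Re (γ (α - 1) ζ)| ≤ ρ ‖γ₀‖ ‖P‖ D ε₁ lam ≤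
(ε' - ε) δ' / 2`, and the last summand is at most `‖α‖ (ε' - ε) δ' / 2` (`‖α‖ < 1`).
If `M = 0` the claim is trivial (any `γ = 1`, `δ = 1`).  `γ ≠ 0` because `lam > 0`. -/
theorem step (h : Sys P ι F f₁ f₂ f₃ L₁ L₂ L₃ B₃ α p q b z₁ c) {M : ℕ} {ε ε' : ℝ} (hε : 0 ≤ ε)
    (hεε : ε < ε') (hAP : AP P F M ε) : AP P F (2 * M) ε' := by
  obtain ⟨γ₀, δ, c₀, x, hγ₀, hδ, hx⟩ := hAP
  rcases Nat.eq_zero_or_pos M with hM | hM
  · subst hM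
    exact ⟨1, 1, 0, x, one_ne_zero, one_pos, fun i hi => by omega⟩
  -- constants
  obtain ⟨D, hD, hDF⟩ : ∃ D : ℝ, 0 < D ∧ ∀ u ∈ F, ∀ v ∈ F, ‖u - v‖ ≤ D := by
    obtain ⟨D, hD⟩ := Metric.isBounded_iff.1 h.bdd
    refine ⟨max D 1, lt_max_of_lt_right one_pos, fun u hu v hv => ?_⟩
    rw [← dist_eq_norm]
    exact (hD hu hv).trans (le_max_left _ _)
  obtain ⟨C, hC, hstep⟩ := step_alg h.irr h.lt h.inj h.hb
  obtain ⟨e, he⟩ : ∃ e : ℝ, e = (ε' - ε) * δ / 2 := ⟨_, rfl⟩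
  have he0 : 0 < e := by
    rw [he]
    exact half_pos (mul_pos (sub_pos.2 hεε) hδ)
  have hK1 : 0 < ‖γ₀‖ * ‖P‖ * D + 1 := by positivity
  have hK2 : 0 < C * ‖B₃‖ * ‖P‖ * D + 1 := by positivity
  obtain ⟨ε₁, hε₁, hε₁'⟩ : ∃ ε₁ : ℝ, 0 < ε₁ ∧ ‖γ₀‖ * ‖P‖ * D * ε₁ ≤ e := by
    refine ⟨e / (‖γ₀‖ * ‖P‖ * D + 1), div_pos he0 hK1, ?_⟩
    rw [← mul_div_assoc, div_le_iff₀ hK1]
    nlinarith
  obtain ⟨η, hη, hη'⟩ : ∃ η : ℝ, 0 < η ∧ C * ‖B₃‖ * ‖P‖ * D * η ≤ e := by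
    refine ⟨e / (C * ‖B₃‖ * ‖P‖ * D + 1), div_pos he0 hK2, ?_⟩
    rw [← mul_div_assoc, div_le_iff₀ hK2]
    nlinarith
  obtain ⟨f, ρ, ω, hf, hρ, hω, hN⟩ := exists_ndl h hγ₀ hη
  obtain ⟨v, hv⟩ : ∃ v : ℂ, v = P (f (x 0)) - z₁ := ⟨_, rfl⟩
  obtain ⟨n, γ, hlam, hex, hsm, hCg⟩ := hstep ε₁ (M * δ * ρ) v ω hε₁ hω
  obtain ⟨ζ, hζ⟩ : ∃ ζ : ℂ, ζ = B₃ (α ^ n * ω) := ⟨_, rfl⟩
  obtain ⟨z, hz⟩ : ∃ z : ℂ, z = b + B₃ (α ^ n * v) := ⟨_, rfl⟩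
  obtain ⟨lam, hl⟩ : ∃ lam : ℝ, lam = (γ * ζ).re := ⟨_, rfl⟩
  rw [← hζ, ← hl] at hlam hex hsm hCg
  rw [← hz] at hex
  have hγ : γ ≠ 0 := by
    intro h0
    rw [h0, zero_mul, Complex.zero_re] at hl
    linarith
  -- the iterates of the first map
  have hit : ∀ (k : ℕ) (u : E), P (f₁^[k] u) - z₁ = α ^ k * (P u - z₁) := by
    intro k
    induction k with
    | zero =>
      intro u
      rw [Function.iterate_zero, id, pow_zero, one_mul]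
    | succ k ih =>
      intro u
      rw [Function.iterate_succ_apply', h.fix, ih, pow_succ']
      ring
  -- the projections of the needle
  have hs0 : ∀ i, i < M → |(γ₀ * P (x i - x 0)).re| ≤ ‖γ₀‖ * ‖P‖ * D := by
    intro i hi
    refine (Complex.abs_re_le_norm _).trans ?_
    rw [norm_mul, mul_assoc]
    refine mul_le_mul_of_nonneg_left ?_ (norm_nonneg _)
    exact (P.le_opNorm _).trans (mul_le_mul_of_nonneg_left
      (hDF _ (hx i hi).1 _ (hx 0 hM).1) (norm_nonneg _))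
  have hE : ∀ i, i < M → ∃ w : ℂ, ‖w‖ ≤ ‖P‖ * (η * ρ * D) ∧
      P (f (x i)) - z₁ = v + ((ρ * (γ₀ * P (x i - x 0)).re : ℝ) : ℂ) * ω + w := by
    intro i hi
    refine ⟨P (f (x i) - f (x 0) - (ρ * (γ₀ * P (x i - x 0)).re) • ι ω), ?_, ?_⟩
    · refine (P.le_opNorm _).trans (mul_le_mul_of_nonneg_left ?_ (norm_nonneg _))
      exact (hN _ _).trans (mul_le_mul_of_nonneg_left (hDF _ (hx i hi).1 _ (hx 0 hM).1)
        (mul_pos hη hρ).le)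
    · have h1 : P (f (x i) - f (x 0) - (ρ * (γ₀ * P (x i - x 0)).re) • ι ω) =
          P (f (x i)) - P (f (x 0)) - ((ρ * (γ₀ * P (x i - x 0)).re : ℝ) : ℂ) * ω := by
        rw [map_sub, map_smul, h.sec, Complex.real_smul, map_sub]
      rw [h1, hv]
      ring
  have hY : ∀ i, i < M → ∃ w : ℂ, ‖γ‖ * ‖w‖ ≤ e * ρ * lam ∧
      P (f₃ (f₁^[n] (f (x i)))) - z₁ =
        z + ((ρ * (γ₀ * P (x i - x 0)).re : ℝ) : ℂ) * ζ + w := by
    intro i hi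
    obtain ⟨w, hw, hw'⟩ := hE i hi
    refine ⟨B₃ (α ^ n * w), ?_, ?_⟩
    · have h1 : ‖B₃ (α ^ n * w)‖ ≤ ‖B₃‖ * (‖α‖ ^ n * ‖w‖) := by
        refine (B₃.le_opNorm _).trans_eq ?_
        rw [norm_mul, norm_pow]
      calc ‖γ‖ * ‖B₃ (α ^ n * w)‖ ≤ ‖γ‖ * (‖B₃‖ * (‖α‖ ^ n * ‖w‖)) :=
            mul_le_mul_of_nonneg_left h1 (norm_nonneg _)
        _ = (‖γ‖ * ‖α‖ ^ n) * (‖B₃‖ * ‖w‖) := by ring
        _ ≤ (C * lam) * (‖B₃‖ * (‖P‖ * (η * ρ * D))) := by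
            refine mul_le_mul hCg (mul_le_mul_of_nonneg_left hw (norm_nonneg _)) ?_ ?_
            · positivity
            · exact (mul_pos hC hlam).le
        _ = (C * ‖B₃‖ * ‖P‖ * D * η) * (ρ * lam) := by ring
        _ ≤ e * (ρ * lam) := mul_le_mul_of_nonneg_right hη' (mul_pos hρ hlam).le
        _ = e * ρ * lam := by ring
    · have h1 : α ^ n * (v + ((ρ * (γ₀ * P (x i - x 0)).re : ℝ) : ℂ) * ω + w) =
          α ^ n * v + (ρ * (γ₀ * P (x i - x 0)).re) • (α ^ n * ω) + α ^ n * w := by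
        rw [Complex.real_smul]
        ring
      rw [h.b3, hit, hw', h1, map_add, map_add, map_smul, ← hζ, Complex.real_smul, hz]
      ring
  -- the deviations
  obtain ⟨θ, hθ⟩ : ∃ θ : ℕ → ℝ, ∀ i, θ i = (γ₀ * P (x i)).re - c₀ - i * δ := ⟨_, fun _ => rfl⟩
  have hθ' : ∀ i, i < M → |θ i| ≤ ε * δ := fun i hi => by
    rw [hθ]
    exact (hx i hi).2
  have hs : ∀ i, (γ₀ * P (x i - x 0)).re = i * δ + θ i - θ 0 := by
    intro i
    rw [hθ, hθ, map_sub, mul_sub, Complex.sub_re, Nat.cast_zero]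
    ring
  have hrl : 0 < ρ * lam := mul_pos hρ hlam
  refine ⟨γ, δ * (ρ * lam), (γ * z₁).re + (γ * z).re - ρ * lam * θ 0,
    fun i => if i < M then f₃ (f₁^[n] (f (x i))) else f₁ (f₃ (f₁^[n] (f (x (i - M))))), hγ,
    mul_pos hδ hrl, fun i hi => ?_⟩
  have hmem : ∀ j, j < M → f₃ (f₁^[n] (f (x j))) ∈ F := fun j hj =>
    h.s3.maps _ ((h.s1.iter n).maps _ (hf _ (hx j hj).1))
  by_cases hiM : i < M
  · dsimp only
    rw [if_pos hiM]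
    refine ⟨hmem i hiM, ?_⟩
    obtain ⟨w, hw, hw'⟩ := hY i hiM
    have h1 : γ * P (f₃ (f₁^[n] (f (x i)))) = γ * z₁ + (γ * z +
        ((ρ * (γ₀ * P (x i - x 0)).re : ℝ) : ℂ) * (γ * ζ) + γ * w) := by
      linear_combination γ * hw'
    have h2 : (γ * P (f₃ (f₁^[n] (f (x i))))).re =
        (γ * z₁).re + ((γ * z).re + ρ * (γ₀ * P (x i - x 0)).re * lam + (γ * w).re) := by
      rw [h1, Complex.add_re, Complex.add_re, Complex.add_re, Complex.re_ofReal_mul, hl]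
    have h3 : |(γ * w).re| ≤ e * ρ * lam := by
      refine (Complex.abs_re_le_norm _).trans ?_
      rw [norm_mul]
      exact hw
    have h4 : (γ * P (f₃ (f₁^[n] (f (x i))))).re -
        ((γ * z₁).re + (γ * z).re - ρ * lam * θ 0) - i * (δ * (ρ * lam)) =
        ρ * lam * θ i + (γ * w).re := by
      rw [h2, hs]
      ring
    rw [h4]
    refine (abs_add_le _ _).trans ?_
    rw [abs_mul, abs_of_pos hrl]
    have h5 := mul_le_mul_of_nonneg_left (hθ' i hiM) hrl.le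
    have h6 : ρ * lam * (ε * δ) + e * ρ * lam ≤ ε' * (δ * (ρ * lam)) := by
      have h7 : ε' * (δ * (ρ * lam)) - (ρ * lam * (ε * δ) + e * ρ * lam) = e * (ρ * lam) := by
        rw [he]
        ring
      have h8 := mul_pos he0 hrl
      linarith
    linarith
  · dsimp only
    rw [if_neg hiM]
    obtain ⟨j, rfl⟩ : ∃ j, i = M + j := ⟨i - M, by omega⟩
    have hj : j < M := by omega
    rw [Nat.add_sub_cancel_left]
    refine ⟨h.s1.maps _ (hmem j hj), ?_⟩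
    obtain ⟨w, hw, hw'⟩ := hY j hj
    have h1 : γ * P (f₁ (f₃ (f₁^[n] (f (x j))))) = γ * z₁ + (γ * z + γ * ((α - 1) * z) +
        ((ρ * (γ₀ * P (x j - x 0)).re : ℝ) : ℂ) * (γ * ζ + γ * ((α - 1) * ζ)) +
        α * (γ * w)) := by
      linear_combination γ * h.fix (f₃ (f₁^[n] (f (x j)))) + γ * α * hw'
    have h2 : (γ * P (f₁ (f₃ (f₁^[n] (f (x j)))))).re =
        (γ * z₁).re + ((γ * z).re + M * δ * ρ * lam + ρ * (γ₀ * P (x j - x 0)).re *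
          (lam + (γ * ((α - 1) * ζ)).re) + (α * (γ * w)).re) := by
      rw [h1, Complex.add_re, Complex.add_re, Complex.add_re, Complex.add_re, hex,
        Complex.re_ofReal_mul, Complex.add_re, hl]
    have h3 : |(α * (γ * w)).re| ≤ e * ρ * lam := by
      refine (Complex.abs_re_le_norm _).trans ?_
      rw [norm_mul, norm_mul]
      refine (mul_le_of_le_one_left ?_ h.lt.le).trans hw
      positivity
    have h4 : (γ * P (f₁ (f₃ (f₁^[n] (f (x j)))))).re -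
        ((γ * z₁).re + (γ * z).re - ρ * lam * θ 0) - ((M + j : ℕ) : ℝ) * (δ * (ρ * lam)) =
        ρ * lam * θ j + ρ * ((γ₀ * P (x j - x 0)).re * (γ * ((α - 1) * ζ)).re) +
          (α * (γ * w)).re := by
      rw [h2, Nat.cast_add]
      have h5 := hs j
      linear_combination (ρ * lam) * h5
    have h5 : |ρ * ((γ₀ * P (x j - x 0)).re * (γ * ((α - 1) * ζ)).re)| ≤ e * ρ * lam := by
      rw [abs_mul, abs_mul, abs_of_pos hρ]
      calc ρ * (|(γ₀ * P (x j - x 0)).re| * |(γ * ((α - 1) * ζ)).re|)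
          ≤ ρ * ((‖γ₀‖ * ‖P‖ * D) * (ε₁ * lam)) := by
            refine mul_le_mul_of_nonneg_left ?_ hρ.le
            exact mul_le_mul (hs0 j hj) hsm (abs_nonneg _) (by positivity)
        _ = (‖γ₀‖ * ‖P‖ * D * ε₁) * (ρ * lam) := by ring
        _ ≤ e * (ρ * lam) := mul_le_mul_of_nonneg_right hε₁' hrl.le
        _ = e * ρ * lam := by ring
    rw [h4]
    refine (abs_add_le _ _).trans ?_
    have h6 := abs_add_le (ρ * lam * θ j)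
      (ρ * ((γ₀ * P (x j - x 0)).re * (γ * ((α - 1) * ζ)).re))
    rw [abs_mul (ρ * lam) (θ j), abs_of_pos hrl] at h6
    have h7 := mul_le_mul_of_nonneg_left (hθ' j hj) hrl.le
    have h8 : ε' * (δ * (ρ * lam)) = ρ * lam * (ε * δ) + 2 * (e * ρ * lam) := by
      rw [he]
      ring
    rw [h8]
    linarith

/-- PROOF.  Induction on `N` with `AP_one` and `step` (for `ε / 2 < ε`). -/
theorem AP_pow (h : Sys P ι F f₁ f₂ f₃ L₁ L₂ L₃ B₃ α p q b z₁ c) (N : ℕ) :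
    ∀ ε : ℝ, 0 < ε → AP P F (2 ^ N) ε := by
  induction N with
  | zero =>
    intro ε hε
    exact AP_one h.ne hε.le
  | succ N ih =>
    intro ε hε
    rw [pow_succ']
    exact step h (half_pos hε).le (half_lt_self hε) (ih _ (half_pos hε))

end Pool.Agent.MP_b039ef_an.SG
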